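import Mathlib

/-!
# Representations as sums of `a / 2 ^ a`: the states with a unique continuation form a null set

A real number `r` is a state at level `n` if `0 < r ≤ n + 2`.  The continuations of the state `r`
at level `n` are `2 r` and `2 r - (n + 1)` (at level `n + 1`), as far as they are states.
`cnt k n r` is the number of continuations at level `n + k`.  `U n` is the set of the states at
level `n` with a unique continuation at all higher levels.

Proof that `U n` is a null set (`null_U`).  Let `b n` be the measure of `U n`.  The part of the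
states where both continuations are states is in the middle, and `b (n + 1)` is `b n` plus half of
the measure of the part of `U (n + 1)` in the two end segments of length `2`.  If `b n > 0` for some
`n`, then by the density theorem of Lebesgue (the states at level `n + k` correspond to intervals of
length `(n + k + 2) / 2 ^ k` around a point of density) `b m / (m + 2) → 1`.  A point of an end
segment is doubled until it is large, so the measure of the part of `U (n + 1)` in the end segments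
tends to `4`, and `b (n + 1) - b n → 2`, which contradicts `b n ≤ n + 2`.
-/

namespace Pool.Agent.Helper50.RM

open MeasureTheory Filter Topology

open Classical in
/-- The number of continuations at level `n + k` of the state `r` at level `n`. -/
noncomputable def cnt : ℕ → ℕ → ℝ → ℕ
  | 0, n, r => if 0 < r ∧ r ≤ n + 2 then 1 else 0
  | k + 1, n, r => cnt k (n + 1) (2 * r) + cnt k (n + 1) (2 * r - (n + 1))

theorem cnt_succ (k n : ℕ) (r : ℝ) :
    cnt (k + 1) n r = cnt k (n + 1) (2 * r) + cnt k (n + 1) (2 * r - (n + 1)) := rfl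

theorem cnt_out (k n : ℕ) (r : ℝ) (h : ¬ (0 < r ∧ r ≤ n + 2)) : cnt k n r = 0 := by
  induction k generalizing n r with
  | zero => rw [cnt, if_neg h]
  | succ k ih =>
    rw [cnt_succ, ih (n + 1) (2 * r), ih (n + 1) (2 * r - (n + 1))]
    · rintro ⟨h1, h2⟩
      push_cast at h2
      have hn : (0 : ℝ) ≤ n := Nat.cast_nonneg n
      exact h ⟨by linarith, by linarith⟩
    · rintro ⟨h1, h2⟩
      push_cast at h2
      have hn : (0 : ℝ) ≤ n := Nat.cast_nonneg n
      exact h ⟨by linarith, by linarith⟩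

theorem cnt_zero_in (n : ℕ) (r : ℝ) (h : 0 < r ∧ r ≤ n + 2) : cnt 0 n r = 1 := by
  rw [cnt, if_pos h]

theorem cnt_mono1 (k n : ℕ) (r : ℝ) : cnt k n r ≤ cnt (k + 1) n r := by
  induction k generalizing n r with
  | zero =>
    by_cases h : 0 < r ∧ r ≤ n + 2
    · rw [cnt_zero_in n r h, cnt_succ]
      by_cases h2 : 2 * r ≤ n + 3
      · rw [cnt_zero_in (n + 1) (2 * r) ⟨by linarith [h.1], by push_cast; linarith⟩]
        omega
      · have hn : (0 : ℝ) ≤ n := Nat.cast_nonneg n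
        rw [cnt_zero_in (n + 1) (2 * r - (n + 1)) ⟨by linarith, by push_cast; linarith [h.2]⟩]
        omega
    · rw [cnt_out 0 n r h]
      omega
  | succ k ih =>
    rw [cnt_succ k, cnt_succ (k + 1)]
    exact Nat.add_le_add (ih _ _) (ih _ _)

theorem cnt_mono {k l : ℕ} (h : k ≤ l) (n : ℕ) (r : ℝ) : cnt k n r ≤ cnt l n r :=
  monotone_nat_of_le_succ (f := fun k => cnt k n r) (fun k => cnt_mono1 k n r) h

theorem measurable_cnt (k n : ℕ) : Measurable (cnt k n) := by
  induction k generalizing n with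
  | zero =>
    have h : cnt 0 n = fun r : ℝ => if r ∈ Set.Ioc (0 : ℝ) (n + 2) then 1 else 0 := by
      funext r
      rw [cnt]
      congr 1
    rw [h]
    exact Measurable.ite measurableSet_Ioc measurable_const measurable_const
  | succ k ih =>
    have h : cnt (k + 1) n =
        fun r => cnt k (n + 1) (2 * r) + cnt k (n + 1) (2 * r - (n + 1)) := rfl
    rw [h]
    exact ((ih (n + 1)).comp (by fun_prop)).add ((ih (n + 1)).comp (by fun_prop))

/-- The states with a unique continuation. -/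
def U (n : ℕ) : Set ℝ := {r | (0 < r ∧ r ≤ n + 2) ∧ ∀ k, cnt k n r ≤ 1}

theorem U_sub (n : ℕ) : U n ⊆ Set.Ioc 0 (n + 2) := fun _ h => h.1

theorem measurableSet_U (n : ℕ) : MeasurableSet (U n) := by
  have h : U n = Set.Ioc (0 : ℝ) (n + 2) ∩ ⋂ k, cnt k n ⁻¹' Set.Iic 1 := by
    ext r
    simp only [U, Set.mem_ofPred_eq, Set.mem_inter_iff, Set.mem_Ioc, Set.mem_iInter,
      Set.mem_preimage, Set.mem_Iic]
  rw [h]
  exact measurableSet_Ioc.inter (MeasurableSet.iInter fun k => measurable_cnt k n measurableSet_Iic)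

/-- A point of `U n` has exactly one continuation, and it is not in the end segment created by the
other one. -/
theorem U_step {n : ℕ} {r : ℝ} (h : r ∈ U n) :
    (2 * r ∈ U (n + 1) ∩ Set.Ioc 0 (n + 1)) ∨ (2 * r - (n + 1) ∈ U (n + 1) ∩ Set.Ioc 2 (n + 3)) := by
  obtain ⟨⟨h0, h1⟩, hk⟩ := h
  have hn : (0 : ℝ) ≤ n := Nat.cast_nonneg n
  by_cases h2 : 2 * r ≤ n + 1
  · refine Or.inl ⟨⟨⟨by linarith, by push_cast; linarith⟩, fun k => ?_⟩, by linarith, h2⟩
    have := hk (k + 1)
    rw [cnt_succ] at this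
    omega
  · push Not at h2
    by_cases h3 : 2 * r ≤ n + 3
    · exfalso
      have := hk 1
      rw [cnt_succ, cnt_zero_in (n + 1) (2 * r) ⟨by linarith, by push_cast; linarith⟩,
        cnt_zero_in (n + 1) (2 * r - (n + 1)) ⟨by linarith, by push_cast; linarith⟩] at this
      omega
    · push Not at h3
      refine Or.inr ⟨⟨⟨by linarith, by push_cast; linarith⟩, fun k => ?_⟩, by linarith,
        by linarith⟩
      have := hk (k + 1)
      rw [cnt_succ] at this
      omega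

/-- Small states are doubled. -/
theorem cnt_bot (j k n : ℕ) (r : ℝ) (h0 : 0 < r) (h : 2 ^ j * r ≤ n + 1) :
    cnt (j + k) n r = cnt k (n + j) (2 ^ j * r) := by
  induction j generalizing n r with
  | zero => simp
  | succ j ih =>
    have h1 : (1 : ℝ) ≤ 2 ^ j := one_le_pow₀ (by norm_num)
    have h2 : 2 * r ≤ 2 ^ (j + 1) * r := by
      rw [pow_succ]
      nlinarith
    have h3 : cnt (j + k) (n + 1) (2 * r - (n + 1)) = 0 :=
      cnt_out _ _ _ fun h4 => by linarith [h4.1]
    rw [show j + 1 + k = j + k + 1 by ring, cnt_succ, h3, add_zero,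
      ih (n + 1) (2 * r) (by linarith) (by
        push_cast
        rw [show (2 : ℝ) ^ j * (2 * r) = 2 ^ (j + 1) * r by ring]
        linarith),
      show n + 1 + j = n + (j + 1) by ring, show (2 : ℝ) ^ j * (2 * r) = 2 ^ (j + 1) * r by ring]

/-- The distance of large states to the maximum is doubled. -/
theorem cnt_top (j k n : ℕ) (s : ℝ) (h0 : 0 ≤ s) (h : 2 ^ j * s < n + 1) :
    cnt (j + k) n (n + 2 - s) = cnt k (n + j) ((n + j : ℕ) + 2 - 2 ^ j * s) := by
  induction j generalizing n s with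
  | zero => simp
  | succ j ih =>
    have h1 : (1 : ℝ) ≤ 2 ^ j := one_le_pow₀ (by norm_num)
    have h2 : 2 * s ≤ 2 ^ (j + 1) * s := by
      rw [pow_succ]
      nlinarith
    have h3 : cnt (j + k) (n + 1) (2 * (n + 2 - s)) = 0 :=
      cnt_out _ _ _ fun h4 => by
        have := h4.2
        push_cast at this
        linarith
    have h5 := ih (n + 1) (2 * s) (by linarith) (by
        push_cast
        rw [show (2 : ℝ) ^ j * (2 * s) = 2 ^ (j + 1) * s by ring]
        linarith)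
    rw [show j + 1 + k = j + k + 1 by ring, cnt_succ, h3, zero_add,
      show (2 * ((n : ℝ) + 2 - s) - (n + 1)) = ((n + 1 : ℕ) : ℝ) + 2 - 2 * s by push_cast; ring, h5,
      show n + 1 + j = n + (j + 1) by ring, show (2 : ℝ) ^ j * (2 * s) = 2 ^ (j + 1) * s by ring]

theorem U_bot {j n : ℕ} (hj : (2 : ℝ) ^ (j + 1) ≤ n + 1) {r : ℝ} (h0 : 0 < r) (h2 : r ≤ 2)
    (h : 2 ^ j * r ∈ U (n + j)) : r ∈ U n := by
  have hn : (0 : ℝ) ≤ n := Nat.cast_nonneg n
  refine ⟨⟨h0, by linarith⟩, fun k => ?_⟩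
  have h3 : 2 ^ j * r ≤ n + 1 := by
    refine le_trans ?_ hj
    rw [pow_succ]
    exact mul_le_mul_of_nonneg_left h2 (by positivity)
  calc cnt k n r ≤ cnt (j + k) n r := cnt_mono (by omega) n r
    _ = cnt k (n + j) (2 ^ j * r) := cnt_bot j k n r h0 h3
    _ ≤ 1 := h.2 k

theorem U_top {j n : ℕ} (hj : (2 : ℝ) ^ (j + 1) ≤ n + 1) {s : ℝ} (h0 : 0 ≤ s) (h2 : s < 2)
    (h : ((n + j : ℕ) : ℝ) + 2 - 2 ^ j * s ∈ U (n + j)) : (n : ℝ) + 2 - s ∈ U n := by
  have hn : (0 : ℝ) ≤ n := Nat.cast_nonneg n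
  refine ⟨⟨by linarith, by linarith⟩, fun k => ?_⟩
  have h3 : 2 ^ j * s < n + 1 := by
    refine lt_of_lt_of_le ?_ hj
    rw [pow_succ]
    exact mul_lt_mul_of_pos_left h2 (by positivity)
  calc cnt k n (n + 2 - s) ≤ cnt (j + k) n (n + 2 - s) := cnt_mono (by omega) n _
    _ = cnt k (n + j) ((n + j : ℕ) + 2 - 2 ^ j * s) := cnt_top j k n s h0 h3
    _ ≤ 1 := h.2 k

/-! ### Measures -/

/-- The measure of `U n`. -/
noncomputable def b (n : ℕ) : ℝ := volume.real (U n)

/-- Preimages under affine maps. -/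
theorem vol_aff {a : ℝ} (ha : a ≠ 0) (c : ℝ) (S : Set ℝ) :
    volume.real {r | a * r + c ∈ S} = |a|⁻¹ * volume.real S := by
  have h1 : {r | a * r + c ∈ S} = (a * ·) ⁻¹' ((· + c) ⁻¹' S) := rfl
  rw [h1, measureReal_def, Real.volume_preimage_mul_left ha, measure_preimage_add_right,
    ENNReal.toReal_mul, ENNReal.toReal_ofReal (abs_nonneg _), abs_inv, measureReal_def]

theorem fin_of_sub {S : Set ℝ} {u v : ℝ} (h : S ⊆ Set.Ioc u v) : volume S ≠ ⊤ :=
  ((measure_mono h).trans_lt (by rw [Real.volume_Ioc]; exact ENNReal.ofReal_lt_top)).ne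

theorem b_le (n : ℕ) : b n ≤ n + 2 := by
  have h := measureReal_mono (μ := volume) (U_sub n)
    (by rw [Real.volume_Ioc]; exact ENNReal.ofReal_ne_top)
  rw [measureReal_def (s := Set.Ioc (0 : ℝ) (n + 2)), Real.volume_Ioc, sub_zero,
    ENNReal.toReal_ofReal (by positivity)] at h
  unfold b
  linarith

/-- The part of `U n` in a segment `I` of length `l` has at least the measure
`l - (n + 2 - b n)`. -/
theorem part_ge (n : ℕ) {u v : ℝ} (h0 : 0 ≤ u) (hu : u ≤ v) (hv : v ≤ n + 2) :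
    (v - u) - (n + 2 - b n) ≤ volume.real (U n ∩ Set.Ioc u v) := by
  have h1 : volume.real (U n ∩ Set.Ioc u v) + volume.real (U n \ Set.Ioc u v) = b n :=
    measureReal_inter_add_sdiff measurableSet_Ioc (fin_of_sub (U_sub n))
  have h2 : volume.real (U n \ Set.Ioc u v) ≤ volume.real (Set.Ioc (0 : ℝ) (n + 2) \ Set.Ioc u v) :=
    measureReal_mono (Set.sdiff_subset_sdiff_left (U_sub n))
      ((measure_mono Set.sdiff_subset).trans_lt
        (by rw [Real.volume_Ioc]; exact ENNReal.ofReal_lt_top)).ne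
  have h3 : volume.real (Set.Ioc (0 : ℝ) (n + 2) ∩ Set.Ioc u v) +
      volume.real (Set.Ioc (0 : ℝ) (n + 2) \ Set.Ioc u v) = volume.real (Set.Ioc (0 : ℝ) (n + 2)) :=
    measureReal_inter_add_sdiff measurableSet_Ioc
      (by rw [Real.volume_Ioc]; exact ENNReal.ofReal_ne_top)
  have h4 : Set.Ioc (0 : ℝ) (n + 2) ∩ Set.Ioc u v = Set.Ioc u v :=
    Set.inter_eq_right.2 (Set.Ioc_subset_Ioc h0 hv)
  have h5 : volume.real (Set.Ioc (0 : ℝ) (n + 2)) = n + 2 := by
    rw [measureReal_def, Real.volume_Ioc, sub_zero, ENNReal.toReal_ofReal (by positivity)]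
  have h6 : volume.real (Set.Ioc u v) = v - u := by
    rw [measureReal_def, Real.volume_Ioc, ENNReal.toReal_ofReal (by linarith)]
  rw [h4, h5, h6] at h3
  linarith

theorem bot_ge {j n : ℕ} (hj : (2 : ℝ) ^ (j + 1) ≤ n + 1) :
    2 - (2 ^ j)⁻¹ * ((n + j : ℕ) + 2 - b (n + j)) ≤ volume.real (U n ∩ Set.Ioc 0 2) := by
  have hp : (0 : ℝ) < 2 ^ j := by positivity
  have h1 : {r : ℝ | 2 ^ j * r + 0 ∈ U (n + j) ∩ Set.Ioc 0 (2 ^ (j + 1))} ⊆
      U n ∩ Set.Ioc 0 2 := by
    rintro r ⟨h1, h2, h3⟩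
    rw [add_zero] at h1 h2 h3
    have h4 : 0 < r := pos_of_mul_pos_right h2 hp.le
    have h5 : r ≤ 2 := by
      rw [pow_succ] at h3
      exact le_of_mul_le_mul_left h3 hp
    exact ⟨U_bot hj h4 h5 h1, h4, h5⟩
  have h2 := measureReal_mono (μ := volume) h1
    (fin_of_sub (Set.inter_subset_right (s := U n) (t := Set.Ioc (0 : ℝ) 2)))
  rw [vol_aff hp.ne', abs_of_pos hp] at h2
  have h3 := part_ge (n + j) (le_refl 0) (show (0 : ℝ) ≤ 2 ^ (j + 1) by positivity)
    (by push_cast; linarith [Nat.cast_nonneg (α := ℝ) j])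
  refine le_trans ?_ h2
  have h4 := mul_le_mul_of_nonneg_left h3 (inv_nonneg.2 hp.le)
  refine le_trans (le_of_eq ?_) h4
  rw [pow_succ]
  field_simp
  ring

theorem top_ge {j n : ℕ} (hj : (2 : ℝ) ^ (j + 1) ≤ n + 1) :
    2 - (2 ^ j)⁻¹ * ((n + j : ℕ) + 2 - b (n + j)) ≤
      volume.real (U n ∩ Set.Ioc (n : ℝ) (n + 2)) := by
  have hp : (0 : ℝ) < 2 ^ j := by positivity
  set c : ℝ := (n + j : ℕ) + 2 - 2 ^ j * (n + 2) with hc
  have h1 : {r : ℝ | 2 ^ j * r + c ∈ U (n + j) ∩
      Set.Ioc ((n + j : ℕ) + 2 - (2 : ℝ) ^ (j + 1)) ((n + j : ℕ) + 2)} ⊆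
      U n ∩ Set.Ioc (n : ℝ) (n + 2) := by
    rintro r ⟨h1, h2, h3⟩
    have e : 2 ^ j * r + c = ((n + j : ℕ) : ℝ) + 2 - 2 ^ j * (n + 2 - r) := by rw [hc]; ring
    rw [e] at h1 h2 h3
    have h4 : 0 ≤ (n : ℝ) + 2 - r := by
      by_contra h
      push Not at h
      have := mul_neg_of_pos_of_neg hp h
      linarith
    have h5 : (n : ℝ) + 2 - r < 2 := by
      have : 2 ^ j * ((n : ℝ) + 2 - r) < 2 ^ j * 2 := by
        rw [← pow_succ]
        linarith
      exact lt_of_mul_lt_mul_left this hp.le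
    have h6 := U_top hj h4 h5 h1
    rw [show (n : ℝ) + 2 - (n + 2 - r) = r by ring] at h6
    exact ⟨h6, by linarith, by linarith⟩
  have h2 := measureReal_mono (μ := volume) h1
    (fin_of_sub (Set.inter_subset_right (s := U n) (t := Set.Ioc (n : ℝ) (n + 2))))
  rw [vol_aff hp.ne', abs_of_pos hp] at h2
  have h3 := part_ge (n + j) (u := (n + j : ℕ) + 2 - (2 : ℝ) ^ (j + 1)) (v := (n + j : ℕ) + 2)
    (by push_cast; linarith [Nat.cast_nonneg (α := ℝ) j])
    (by linarith [show (0 : ℝ) ≤ 2 ^ (j + 1) by positivity]) (le_refl _)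
  refine le_trans ?_ h2
  have h4 := mul_le_mul_of_nonneg_left h3 (inv_nonneg.2 hp.le)
  refine le_trans (le_of_eq ?_) h4
  rw [pow_succ]
  field_simp
  ring

/-- The recursion for the measures. -/
theorem b_step (n : ℕ) : b n + (volume.real (U (n + 1) ∩ Set.Ioc 0 2) +
    volume.real (U (n + 1) ∩ Set.Ioc ((n + 1 : ℕ) : ℝ) ((n + 1 : ℕ) + 2))) / 2 ≤ b (n + 1) := by
  have hn : (0 : ℝ) ≤ n := Nat.cast_nonneg n
  have hsub : U n ⊆ {r : ℝ | 2 * r + 0 ∈ U (n + 1) ∩ Set.Ioc 0 (n + 1)} ∪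
      {r : ℝ | 2 * r + (-(n + 1)) ∈ U (n + 1) ∩ Set.Ioc 2 (n + 3)} := by
    intro r hr
    rcases U_step hr with h | h
    · left
      rw [Set.mem_ofPred_eq, add_zero]
      exact h
    · right
      rw [Set.mem_ofPred_eq, ← sub_eq_add_neg]
      exact h
  have hf1 : volume {r : ℝ | 2 * r + 0 ∈ U (n + 1) ∩ Set.Ioc 0 (n + 1)} ≠ ⊤ := by
    refine fin_of_sub (u := 0) (v := n + 1) ?_
    rintro r ⟨-, h1, h2⟩
    exact ⟨by linarith, by linarith⟩
  have hf2 : volume {r : ℝ | 2 * r + (-(n + 1)) ∈ U (n + 1) ∩ Set.Ioc 2 (n + 3)} ≠ ⊤ := by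
    refine fin_of_sub (u := 0) (v := n + 2) ?_
    rintro r ⟨-, h1, h2⟩
    exact ⟨by linarith, by linarith⟩
  have h1 : b n ≤ volume.real ({r : ℝ | 2 * r + 0 ∈ U (n + 1) ∩ Set.Ioc 0 (n + 1)} ∪
      {r : ℝ | 2 * r + (-(n + 1)) ∈ U (n + 1) ∩ Set.Ioc 2 (n + 3)}) :=
    measureReal_mono hsub (measure_union_ne_top hf1 hf2)
  have h2 := h1.trans (measureReal_union_le _ _)
  rw [vol_aff (by norm_num), vol_aff (by norm_num)] at h2
  have hd : ∀ u v u' v' : ℝ, v ≤ u' → volume.real (U (n + 1) ∩ Set.Ioc u v) +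
      volume.real (U (n + 1) ∩ Set.Ioc u' v') ≤ b (n + 1) := by
    intro u v u' v' huv
    have hdis : Disjoint (U (n + 1) ∩ Set.Ioc u v) (U (n + 1) ∩ Set.Ioc u' v') := by
      rw [Set.disjoint_left]
      rintro r ⟨-, h3, h4⟩ ⟨-, h5, h6⟩
      linarith
    rw [← measureReal_union hdis ((measurableSet_U (n + 1)).inter measurableSet_Ioc)
      (fin_of_sub Set.inter_subset_right) (fin_of_sub Set.inter_subset_right)]
    exact measureReal_mono (Set.union_subset Set.inter_subset_left Set.inter_subset_left)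
      (fin_of_sub (U_sub (n + 1)))
  have h3 := hd 0 2 2 (n + 3) le_rfl
  have h4 := hd 0 (n + 1) ((n + 1 : ℕ) : ℝ) ((n + 1 : ℕ) + 2) (by push_cast; exact le_rfl)
  rw [abs_of_pos (by norm_num : (0 : ℝ) < 2)] at h2
  linarith

end Pool.Agent.Helper50.RM
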