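import Pool.Agent.Helper50.RM.A

/-!
# The states with a unique continuation form a null set
-/

namespace Pool.Agent.Helper50.RM

open MeasureTheory Filter Topology

/-- A continuation of the state `x` at level `n`. -/
noncomputable def st (n : ℕ) (x : ℝ) : ℕ → ℝ
  | 0 => x
  | k + 1 => if 2 * st n x k ≤ (n : ℝ) + k + 3 then 2 * st n x k else 2 * st n x k - (n + k + 1)

theorem st_bounds (n : ℕ) (x : ℝ) (h0 : 0 < x) (h1 : x ≤ n + 2) (k : ℕ) :
    0 < st n x k ∧ st n x k ≤ (n : ℝ) + k + 2 := by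
  induction k with
  | zero => simpa [st] using And.intro h0 h1
  | succ k ih =>
    obtain ⟨h2, h3⟩ := ih
    rw [st]
    split_ifs with h
    · constructor
      · linarith
      · push_cast; linarith
    · rw [not_le] at h
      constructor
      · linarith
      · push_cast; linarith

/-- Following the same digits from another state `r`. -/
theorem cnt_follow (n : ℕ) (x r : ℝ) (k j : ℕ) :
    cnt j (n + k) (2 ^ k * r - (2 ^ k * x - st n x k)) ≤ cnt (k + j) n r := by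
  induction k generalizing j with
  | zero => simp [st]
  | succ k ih =>
    refine le_trans ?_ (le_of_le_of_eq (ih (j + 1)) (by rw [show k + (j + 1) = k + 1 + j by ring]))
    rw [cnt_succ, show n + (k + 1) = n + k + 1 by ring]
    by_cases h : 2 * st n x k ≤ (n : ℝ) + k + 3
    · rw [st, if_pos h, show (2 : ℝ) ^ (k + 1) * r - (2 ^ (k + 1) * x - 2 * st n x k) =
        2 * (2 ^ k * r - (2 ^ k * x - st n x k)) by ring]
      exact Nat.le_add_right _ _
    · rw [st, if_neg h, show (2 : ℝ) ^ (k + 1) * r -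
        (2 ^ (k + 1) * x - (2 * st n x k - (n + k + 1))) =
        2 * (2 ^ k * r - (2 ^ k * x - st n x k)) - (((n + k : ℕ) : ℝ) + 1) by push_cast; ring]
      exact Nat.le_add_left _ _

theorem U_follow {n : ℕ} {x r : ℝ} (hr : r ∈ U n) (k : ℕ)
    (h : 0 < 2 ^ k * r - (2 ^ k * x - st n x k) ∧
      2 ^ k * r - (2 ^ k * x - st n x k) ≤ ((n + k : ℕ) : ℝ) + 2) :
    2 ^ k * r - (2 ^ k * x - st n x k) ∈ U (n + k) :=
  ⟨h, fun j => (cnt_follow n x r k j).trans (hr.2 _)⟩

/-- If `U n` has positive measure then `b m / (m + 2) → 1`. -/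
theorem b_large {n : ℕ} (h : volume (U n) ≠ 0) {ε : ℝ} (hε : 0 < ε) :
    ∃ m₀ : ℕ, ∀ m : ℕ, m₀ ≤ m → (m : ℝ) + 2 - b m ≤ ε * (m + 2) := by
  have hne : (ae (volume.restrict (U n))).NeBot := by
    rw [ae_neBot]
    intro h0
    exact h (Measure.restrict_eq_zero.1 h0)
  obtain ⟨x, hx, hxU⟩ := ((IsUnifLocDoublingMeasure.ae_tendsto_measure_inter_div volume (U n) 1).and
    (ae_restrict_mem (measurableSet_U n))).exists
  have hp : ∀ k : ℕ, (0 : ℝ) < 2 ^ k := fun k => by positivity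
  have hδ : Tendsto (fun k : ℕ => (((n + k : ℕ) : ℝ) + 2) / 2 ^ (k + 1)) atTop (𝓝[>] 0) := by
    refine tendsto_nhdsWithin_iff.2 ⟨?_, Eventually.of_forall fun k => ?_⟩
    · have h2 : Tendsto (fun k : ℕ => (((n : ℝ) + 2) / 2) * (1 / 2) ^ k +
          (1 / 2) * (k * (1 / 2 : ℝ) ^ k)) atTop (𝓝 ((((n : ℝ) + 2) / 2) * 0 + (1 / 2) * 0)) :=
        ((tendsto_pow_atTop_nhds_zero_of_lt_one (by norm_num) (by norm_num)).const_mul _).add
          ((tendsto_self_mul_const_pow_of_lt_one (by norm_num) (by norm_num)).const_mul _)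
      rw [mul_zero, mul_zero, add_zero] at h2
      refine h2.congr fun k => ?_
      push_cast
      rw [one_div, inv_pow, pow_succ]
      have := (hp k).ne'
      field_simp
      ring
    · show (0 : ℝ) < _
      positivity
  set w : ℕ → ℝ := fun k => ((2 ^ k * x - st n x k) + (((n + k : ℕ) : ℝ) + 2) / 2) / 2 ^ k with hw
  have hball : ∀ k : ℕ, ∀ r : ℝ, r ∈ Metric.closedBall (w k) ((((n + k : ℕ) : ℝ) + 2) / 2 ^ (k + 1)) ↔
      (0 ≤ 2 ^ k * r - (2 ^ k * x - st n x k) ∧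
      2 ^ k * r - (2 ^ k * x - st n x k) ≤ ((n + k : ℕ) : ℝ) + 2) := by
    intro k r
    rw [Metric.mem_closedBall, Real.dist_eq, abs_le]
    have e1 : r - w k = ((2 ^ k * r - (2 ^ k * x - st n x k)) - (((n + k : ℕ) : ℝ) + 2) / 2) / 2 ^ k := by
      rw [hw]
      have := (hp k).ne'
      field_simp
      ring
    have e2 : (((n + k : ℕ) : ℝ) + 2) / 2 ^ (k + 1) = ((((n + k : ℕ) : ℝ) + 2) / 2) / 2 ^ k := by
      rw [pow_succ]
      have := (hp k).ne'
      field_simp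
    rw [e1, e2, ← neg_div, div_le_div_iff_of_pos_right (hp k), div_le_div_iff_of_pos_right (hp k)]
    constructor
    · rintro ⟨h1, h2⟩
      constructor <;> linarith
    · rintro ⟨h1, h2⟩
      constructor <;> linarith
  have hxm : ∀ᶠ k in atTop, x ∈ Metric.closedBall (w k) (1 * ((((n + k : ℕ) : ℝ) + 2) / 2 ^ (k + 1))) := by
    refine Eventually.of_forall fun k => ?_
    rw [one_mul, hball k x, sub_sub_cancel]
    have := st_bounds n x hxU.1.1 hxU.1.2 k
    push_cast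
    exact ⟨this.1.le, by linarith [this.2]⟩
  have hlim := hx w _ hδ hxm
  have hlim2 : ∀ᶠ k : ℕ in atTop, ENNReal.ofReal (1 - ε) ≤
      volume (U n ∩ Metric.closedBall (w k) ((((n + k : ℕ) : ℝ) + 2) / 2 ^ (k + 1))) /
      volume (Metric.closedBall (w k) ((((n + k : ℕ) : ℝ) + 2) / 2 ^ (k + 1))) := by
    refine hlim.eventually (Ici_mem_nhds ?_)
    rw [← ENNReal.ofReal_one, ENNReal.ofReal_lt_ofReal_iff (by norm_num)]
    linarith
  obtain ⟨k₀, hk₀⟩ := eventually_atTop.1 hlim2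
  refine ⟨n + k₀, fun m hm => ?_⟩
  obtain ⟨k, rfl⟩ : ∃ k, m = n + k := ⟨m - n, by omega⟩
  have h1 := hk₀ k (by omega)
  have hvb : volume (Metric.closedBall (w k) ((((n + k : ℕ) : ℝ) + 2) / 2 ^ (k + 1))) =
      ENNReal.ofReal ((((n + k : ℕ) : ℝ) + 2) / 2 ^ k) := by
    rw [Real.volume_closedBall]
    congr 1
    rw [pow_succ]
    have := (hp k).ne'
    field_simp
  have hsub : U n ∩ Metric.closedBall (w k) ((((n + k : ℕ) : ℝ) + 2) / 2 ^ (k + 1)) ⊆
      {r | 2 ^ k * r + -(2 ^ k * x - st n x k) ∈ U (n + k)} ∪ {(2 ^ k * x - st n x k) / 2 ^ k} := by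
    rintro r ⟨hr, hr2⟩
    rw [hball] at hr2
    rcases hr2.1.lt_or_eq with h3 | h3
    · left
      exact U_follow hr k ⟨h3, hr2.2⟩
    · right
      rw [Set.mem_singleton_iff, eq_div_iff (hp k).ne']
      linarith
  have hfin : volume {r : ℝ | 2 ^ k * r + -(2 ^ k * x - st n x k) ∈ U (n + k)} ≠ ⊤ := by
    refine fin_of_sub (u := (2 ^ k * x - st n x k) / 2 ^ k)
      (v := ((2 ^ k * x - st n x k) + (((n + k : ℕ) : ℝ) + 2)) / 2 ^ k) ?_
    rintro r ⟨⟨h3, h4⟩, -⟩
    constructor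
    · rw [div_lt_iff₀ (hp k)]
      linarith
    · rw [le_div_iff₀ (hp k)]
      linarith
  have h2 : volume (U n ∩ Metric.closedBall (w k) ((((n + k : ℕ) : ℝ) + 2) / 2 ^ (k + 1))) ≤
      ENNReal.ofReal ((2 ^ k)⁻¹ * b (n + k)) := by
    refine (measure_mono hsub).trans ((measure_union_le _ _).trans ?_)
    rw [Real.volume_singleton, add_zero]
    have h5 := vol_aff (hp k).ne' (-(2 ^ k * x - st n x k)) (U (n + k))
    rw [abs_of_pos (hp k)] at h5
    rw [b, ← h5, measureReal_def, ENNReal.ofReal_toReal hfin]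
  have h3 : ENNReal.ofReal (1 - ε) ≤ ENNReal.ofReal ((2 ^ k)⁻¹ * b (n + k)) /
      ENNReal.ofReal ((((n + k : ℕ) : ℝ) + 2) / 2 ^ k) := by
    rw [← hvb]
    exact h1.trans (ENNReal.div_le_div_right h2 _)
  have hb0 : 0 ≤ b (n + k) := measureReal_nonneg
  rw [← ENNReal.ofReal_div_of_pos (by positivity),
    ENNReal.ofReal_le_ofReal_iff (by positivity)] at h3
  have h4 : (2 ^ k)⁻¹ * b (n + k) / ((((n + k : ℕ) : ℝ) + 2) / 2 ^ k) =
      b (n + k) / (((n + k : ℕ) : ℝ) + 2) := by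
    have := (hp k).ne'
    field_simp
  rw [h4, le_div_iff₀ (by positivity)] at h3
  linarith

/-- The states with a unique continuation form a null set. -/
theorem null_U (n : ℕ) : volume (U n) = 0 := by
  by_contra h
  obtain ⟨m₀, hm⟩ := b_large h (show (0 : ℝ) < 1 / 32 by norm_num)
  have hstep : ∀ m : ℕ, m₀ ≤ m → b m + 7 / 4 ≤ b (m + 1) := by
    intro m hmm
    -- `2 ^ (j + 1) ≤ m + 2 < 2 ^ (j + 2)`
    have hlog : 2 ^ (Nat.log 2 (m + 2)) ≤ m + 2 := Nat.pow_log_le_self 2 (by omega)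
    have hlog2 : m + 2 < 2 ^ (Nat.log 2 (m + 2) + 1) := Nat.lt_pow_succ_log_self (by norm_num) _
    have hlog1 : 1 ≤ Nat.log 2 (m + 2) := Nat.log_pos (by norm_num) (by omega)
    obtain ⟨j, hj⟩ : ∃ j, Nat.log 2 (m + 2) = j + 1 := ⟨Nat.log 2 (m + 2) - 1, by omega⟩
    rw [hj] at hlog hlog2
    have h1 : (2 : ℝ) ^ (j + 1) ≤ ((m + 1 : ℕ) : ℝ) + 1 := by
      have : ((2 ^ (j + 1) : ℕ) : ℝ) ≤ ((m + 2 : ℕ) : ℝ) := by exact_mod_cast hlog
      push_cast at this ⊢
      linarith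
    have h2 : ((m : ℝ) + 2) < 4 * 2 ^ j := by
      have : ((m + 2 : ℕ) : ℝ) < ((2 ^ (j + 1 + 1) : ℕ) : ℝ) := by exact_mod_cast hlog2
      push_cast at this
      rw [pow_succ, pow_succ] at this
      linarith
    have hj2 : (j : ℝ) ≤ m := by
      have : j + 1 < 2 ^ (j + 1) := Nat.lt_two_pow_self
      have : j + 1 ≤ m + 1 := by omega
      exact_mod_cast (by omega : j ≤ m)
    have h3 := bot_ge h1
    have h4 := top_ge h1
    have h5 := hm (m + 1 + j) (by omega)
    have h6 : (2 ^ j)⁻¹ * (((m + 1 + j : ℕ) : ℝ) + 2 - b (m + 1 + j)) ≤ 1 / 4 := by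
      have hp : (0 : ℝ) < 2 ^ j := by positivity
      rw [inv_mul_le_iff₀ hp]
      refine h5.trans ?_
      push_cast
      linarith
    have h7 := b_step m
    linarith
  have hgrow : ∀ i : ℕ, b m₀ + 7 / 4 * i ≤ b (m₀ + i) := by
    intro i
    induction i with
    | zero => simp
    | succ i ih =>
      have := hstep (m₀ + i) (by omega)
      rw [show m₀ + (i + 1) = m₀ + i + 1 by ring]
      push_cast
      linarith
  have h1 := hgrow (2 * (m₀ + 2))
  have h2 := b_le (m₀ + 2 * (m₀ + 2))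
  have h3 : 0 ≤ b m₀ := measureReal_nonneg
  have h4 : (0 : ℝ) ≤ m₀ := Nat.cast_nonneg _
  push_cast at h1 h2
  linarith

end Pool.Agent.Helper50.RM
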