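import Pool.Agent.Helper50.RM.B

/-!
# Representations and states

`W N P` is the weight of the finite set `P` at level `N`; the prefix `P` (a set of positive integers
`≤ N`) is viable for `x` if `2 ^ N x - W N P` is a state at level `N`.
-/

namespace Pool.Agent.Helper50.RM

open Finset MeasureTheory Filter Topology

/-- `A` is a representation of `x`: an infinite set of positive integers with
`∑_{a ∈ A} a / 2 ^ a = x`. -/
def IsRep (x : ℝ) (A : Set ℕ) : Prop :=
  A.Infinite ∧ (∀ a ∈ A, 0 < a) ∧ HasSum (fun a : A => ((a : ℕ) : ℝ) / 2 ^ (a : ℕ)) x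

/-- the weight of a finite set of places at level `N` -/
def W (N : ℕ) (P : Finset ℕ) : ℕ := ∑ a ∈ P, a * 2 ^ (N - a)

/-- `P` is a set of places `1, …, N` -/
def Pl (N : ℕ) (P : Finset ℕ) : Prop := ∀ a ∈ P, 0 < a ∧ a ≤ N

/-- the prefix `P` is viable for `x` -/
def Node (N : ℕ) (P : Finset ℕ) (x : ℝ) : Prop :=
  0 < 2 ^ N * x - W N P ∧ 2 ^ N * x - W N P ≤ (N : ℝ) + 2

theorem W_div (N : ℕ) (P : Finset ℕ) (hP : Pl N P) :
    (W N P : ℝ) / 2 ^ N = ∑ a ∈ P, (a : ℝ) / 2 ^ a := by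
  rw [W]
  push_cast
  rw [Finset.sum_div]
  apply Finset.sum_congr rfl
  intro a ha
  have : (2 : ℝ) ^ N = 2 ^ (N - a) * 2 ^ a := by rw [← pow_add, Nat.sub_add_cancel (hP a ha).2]
  rw [this]
  field_simp

theorem W_succ {N : ℕ} {P : Finset ℕ} (hP : Pl N P) : W (N + 1) P = 2 * W N P := by
  rw [W, W, Finset.mul_sum]
  refine Finset.sum_congr rfl fun a ha => ?_
  have h := (hP a ha).2
  rw [show N + 1 - a = (N - a) + 1 by omega, pow_succ]
  ring

theorem W_insert {N : ℕ} {P : Finset ℕ} (hP : Pl N P) :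
    W (N + 1) (insert (N + 1) P) = 2 * W N P + (N + 1) := by
  have h : N + 1 ∉ P := fun h => by have := (hP _ h).2; omega
  have h2 := W_succ hP
  rw [W] at h2 ⊢
  rw [Finset.sum_insert h, h2]
  simp
  ring

theorem Pl.succ {N : ℕ} {P : Finset ℕ} (hP : Pl N P) : Pl (N + 1) P := fun a ha =>
  ⟨(hP a ha).1, by have := (hP a ha).2; omega⟩

theorem Pl.insert {N : ℕ} {P : Finset ℕ} (hP : Pl N P) : Pl (N + 1) (insert (N + 1) P) := by
  intro a ha
  rcases Finset.mem_insert.1 ha with rfl | ha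
  · exact ⟨by omega, le_rfl⟩
  · exact hP.succ a ha

/-- The viable prefixes at level `N + k` which extend `P`. -/
theorem exF (k : ℕ) : ∀ (N : ℕ) (P : Finset ℕ) (x : ℝ), Pl N P →
    ∃ F : Finset (Finset ℕ), F.card = cnt k N (2 ^ N * x - W N P) ∧
      (∀ Q ∈ F, Pl (N + k) Q ∧ (∀ a ≤ N, (a ∈ Q ↔ a ∈ P)) ∧ Node (N + k) Q x) ∧
      ∀ j, cnt (k + j) N (2 ^ N * x - W N P) =
        ∑ Q ∈ F, cnt j (N + k) (2 ^ (N + k) * x - W (N + k) Q) := by
  induction k with
  | zero =>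
    intro N P x hP
    by_cases h : 0 < 2 ^ N * x - W N P ∧ 2 ^ N * x - W N P ≤ (N : ℝ) + 2
    · refine ⟨{P}, ?_, ?_, ?_⟩
      · rw [Finset.card_singleton, cnt_zero_in N _ h]
      · intro Q hQ
        rw [Finset.mem_singleton] at hQ
        subst hQ
        exact ⟨hP, fun a _ => Iff.rfl, h⟩
      · intro j
        rw [Finset.sum_singleton, Nat.zero_add, Nat.add_zero]
    · refine ⟨∅, ?_, ?_, ?_⟩
      · rw [Finset.card_empty, cnt_out 0 N _ h]
      · intro Q hQ
        exact absurd hQ (Finset.notMem_empty _)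
      · intro j
        rw [Finset.sum_empty, cnt_out _ N _ h]
  | succ k ih =>
    intro N P x hP
    obtain ⟨F0, h01, h02, h03⟩ := ih (N + 1) P x hP.succ
    obtain ⟨F1, h11, h12, h13⟩ := ih (N + 1) (insert (N + 1) P) x hP.insert
    have e0 : 2 ^ (N + 1) * x - (W (N + 1) P : ℝ) = 2 * (2 ^ N * x - W N P) := by
      rw [W_succ hP]; push_cast; ring
    have e1 : 2 ^ (N + 1) * x - (W (N + 1) (insert (N + 1) P) : ℝ) =
        2 * (2 ^ N * x - W N P) - (N + 1) := by
      rw [W_insert hP]; push_cast; ring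
    rw [e0] at h01 h03
    rw [e1] at h11 h13
    have eN : N + 1 + k = N + (k + 1) := by ring
    rw [eN] at h02 h03 h12 h13
    have hdis : Disjoint F0 F1 := by
      rw [Finset.disjoint_left]
      intro Q hQ0 hQ1
      have a1 := ((h02 Q hQ0).2.1 (N + 1) le_rfl)
      have a2 := ((h12 Q hQ1).2.1 (N + 1) le_rfl).2 (Finset.mem_insert_self _ _)
      have a3 := (hP _ (a1.1 a2)).2
      omega
    refine ⟨F0 ∪ F1, ?_, ?_, ?_⟩
    · rw [Finset.card_union_of_disjoint hdis, h01, h11, cnt_succ]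
    · intro Q hQ
      rcases Finset.mem_union.1 hQ with h | h
      · obtain ⟨b1, b2, b3⟩ := h02 Q h
        exact ⟨b1, fun a ha => b2 a (by omega), b3⟩
      · obtain ⟨b1, b2, b3⟩ := h12 Q h
        refine ⟨b1, fun a ha => ?_, b3⟩
        rw [b2 a (by omega), Finset.mem_insert]
        constructor
        · rintro (rfl | h)
          · omega
          · exact h
        · exact Or.inr
    · intro j
      rw [Finset.sum_union hdis, ← h03, ← h13, show k + 1 + j = k + j + 1 by ring, cnt_succ]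

/-- Good numbers: no prefix has a unique continuation. -/
def Gd (x : ℝ) : Prop := ∀ (N w : ℕ), 2 ^ N * x - w ∉ U N

theorem ae_Gd : ∀ᵐ x : ℝ, Gd x := by
  unfold Gd
  rw [ae_all_iff]
  intro N
  rw [ae_all_iff]
  intro w
  rw [ae_iff]
  have hp : (2 : ℝ) ^ N ≠ 0 := by positivity
  have h1 : {x : ℝ | ¬ 2 ^ N * x - (w : ℝ) ∉ U N} =
      ((2 : ℝ) ^ N * ·) ⁻¹' ((· + (-(w : ℝ))) ⁻¹' U N) := by
    ext x
    simp only [Set.mem_preimage, not_not, ← sub_eq_add_neg]
    exact Iff.rfl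
  rw [h1, Real.volume_preimage_mul_left hp, measure_preimage_add_right, null_U, mul_zero]

/-- Every viable prefix of a good number has two extensions at some level. -/
theorem Gd.split {x : ℝ} (hx : Gd x) {N : ℕ} {P : Finset ℕ} (hP : Pl N P) (hN : Node N P x) :
    ∃ k, ∃ Q Q' : Finset ℕ, Q ≠ Q' ∧ (Pl (N + (k + 1)) Q ∧ (∀ a ≤ N, (a ∈ Q ↔ a ∈ P)) ∧
      Node (N + (k + 1)) Q x) ∧ Pl (N + (k + 1)) Q' ∧ (∀ a ≤ N, (a ∈ Q' ↔ a ∈ P)) ∧
      Node (N + (k + 1)) Q' x := by
  have h1 : ∃ k, ¬ cnt k N (2 ^ N * x - W N P) ≤ 1 := by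
    by_contra h
    push Not at h
    exact hx N (W N P) ⟨hN, h⟩
  obtain ⟨k, hk⟩ := h1
  obtain ⟨F, hF1, hF2, -⟩ := exF (k + 1) N P x hP
  have h2 : 1 < F.card := by
    rw [hF1]
    have := cnt_mono1 k N (2 ^ N * x - W N P)
    omega
  obtain ⟨Q, hQ, Q', hQ', hne⟩ := Finset.one_lt_card.1 h2
  exact ⟨k, Q, Q', hne, hF2 Q hQ, hF2 Q' hQ'⟩

/-- The number of viable prefixes of a good number is unbounded. -/
theorem Gd.cnt_large {x : ℝ} (hx : Gd x) (h0 : 0 < x) (h2 : x ≤ 2) (m : ℕ) :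
    ∃ N, m < cnt N 0 x := by
  have e : x = 2 ^ 0 * x - (W 0 ∅ : ℝ) := by simp [W]
  induction m with
  | zero =>
    refine ⟨0, ?_⟩
    rw [cnt_zero_in 0 x ⟨h0, by push_cast; linarith⟩]
    norm_num
  | succ m ih =>
    obtain ⟨N, hN⟩ := ih
    obtain ⟨F, hF1, hF2, hF3⟩ := exF N 0 ∅ x (fun a ha => absurd ha (Finset.notMem_empty a))
    rw [← e] at hF1 hF3
    have h3 : ∀ Q ∈ F, ∃ k, 2 ≤ cnt k (0 + N) (2 ^ (0 + N) * x - W (0 + N) Q) := by
      intro Q hQ
      by_contra h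
      push Not at h
      refine hx (0 + N) (W (0 + N) Q) ⟨(hF2 Q hQ).2.2, fun k => ?_⟩
      have := h k
      omega
    choose! κ hκ using h3
    refine ⟨N + F.sup κ, ?_⟩
    rw [hF3]
    have h4 : ∑ Q ∈ F, 2 ≤ ∑ Q ∈ F, cnt (F.sup κ) (0 + N) (2 ^ (0 + N) * x - W (0 + N) Q) :=
      Finset.sum_le_sum fun Q hQ => (hκ Q hQ).trans (cnt_mono (Finset.le_sup hQ) _ _)
    rw [Finset.sum_const, smul_eq_mul, hF1] at h4
    omega

/-! ### From prefixes to representations -/

/-- The prefix of a set. -/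
noncomputable def pre (A : Set ℕ) (N : ℕ) : Finset ℕ :=
  open Classical in (Finset.Icc 1 N).filter (· ∈ A)

theorem pl_pre (A : Set ℕ) (N : ℕ) : Pl N (pre A N) := by
  intro a ha
  simp only [pre, Finset.mem_filter, Finset.mem_Icc] at ha
  exact ⟨by omega, ha.1.2⟩

theorem mem_pre {A : Set ℕ} {N a : ℕ} : a ∈ pre A N ↔ (1 ≤ a ∧ a ≤ N) ∧ a ∈ A := by
  simp only [pre, Finset.mem_filter, Finset.mem_Icc]

theorem node_down {N : ℕ} {A : Set ℕ} {x : ℝ} (h : Node (N + 1) (pre A (N + 1)) x) :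
    Node N (pre A N) x := by
  by_cases hA : N + 1 ∈ A
  · have e : pre A (N + 1) = insert (N + 1) (pre A N) := by
      ext a
      rw [Finset.mem_insert, mem_pre, mem_pre]
      constructor
      · rintro ⟨⟨h1, h2⟩, h3⟩
        rcases Nat.lt_or_ge N a with h4 | h4
        · exact Or.inl (by omega)
        · exact Or.inr ⟨⟨h1, h4⟩, h3⟩
      · rintro (rfl | ⟨⟨h1, h2⟩, h3⟩)
        · exact ⟨⟨by omega, le_rfl⟩, hA⟩
        · exact ⟨⟨h1, by omega⟩, h3⟩
    rw [e] at h
    unfold Node at h ⊢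
    rw [W_insert (pl_pre A N), pow_succ] at h
    push_cast at h
    constructor
    · have hn : (0 : ℝ) ≤ N := Nat.cast_nonneg N
      linarith [h.1]
    · linarith [h.2]
  · have e : pre A (N + 1) = pre A N := by
      ext a
      rw [mem_pre, mem_pre]
      constructor
      · rintro ⟨⟨h1, h2⟩, h3⟩
        refine ⟨⟨h1, ?_⟩, h3⟩
        by_contra h4
        exact hA ((by omega : a = N + 1) ▸ h3)
      · rintro ⟨⟨h1, h2⟩, h3⟩
        exact ⟨⟨h1, by omega⟩, h3⟩
    rw [e] at h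
    unfold Node at h ⊢
    rw [W_succ (pl_pre A N), pow_succ] at h
    push_cast at h
    have hn : (0 : ℝ) ≤ N := Nat.cast_nonneg N
    constructor
    · linarith [h.1]
    · linarith [h.2]

theorem node_down' {N M : ℕ} (hNM : N ≤ M) {A : Set ℕ} {x : ℝ} (h : Node M (pre A M) x) :
    Node N (pre A N) x := by
  induction M, hNM using Nat.le_induction with
  | base => exact h
  | succ M _ ih => exact ih (node_down h)

theorem tendsto_level : Tendsto (fun N : ℕ => ((N : ℝ) + 2) / 2 ^ N) atTop (𝓝 0) := by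
  have h2 : Tendsto (fun j : ℕ => (2 : ℝ) * (1 / 2) ^ j + j * (1 / 2 : ℝ) ^ j)
      atTop (𝓝 (2 * 0 + 0)) := by
    apply Tendsto.add
    · apply Tendsto.const_mul
      exact tendsto_pow_atTop_nhds_zero_of_lt_one (by norm_num) (by norm_num)
    · exact tendsto_self_mul_const_pow_of_lt_one (by norm_num) (by norm_num)
  rw [mul_zero, add_zero] at h2
  refine h2.congr fun j => ?_
  rw [one_div, inv_pow, div_eq_mul_inv]
  ring

/-- A set all of whose prefixes are viable is a representation. -/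
theorem isRep_of_nodes {A : Set ℕ} {x : ℝ} (hA : ∀ a ∈ A, 0 < a)
    (h : ∀ N, Node N (pre A N) x) : IsRep x A := by
  classical
  have hsum : ∀ N : ℕ, ∑ a ∈ range (N + 1), A.indicator (fun a : ℕ => (a : ℝ) / 2 ^ a) a =
      (W N (pre A N) : ℝ) / 2 ^ N := by
    intro N
    rw [W_div N _ (pl_pre A N)]
    symm
    have h1 : ∑ a ∈ pre A N, (a : ℝ) / 2 ^ a =
        ∑ a ∈ pre A N, A.indicator (fun a : ℕ => (a : ℝ) / 2 ^ a) a := by
      refine Finset.sum_congr rfl fun a ha => ?_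
      rw [Set.indicator_of_mem (mem_pre.1 ha).2]
    rw [h1]
    refine Finset.sum_subset (fun a ha => ?_) fun a _ ha => ?_
    · rw [Finset.mem_range]
      have := (mem_pre.1 ha).1.2
      omega
    · by_cases haA : a ∈ A
      · exfalso
        rw [Finset.mem_range] at *
        exact ha (mem_pre.2 ⟨⟨hA a haA, by omega⟩, haA⟩)
      · exact Set.indicator_of_notMem haA _
  have hs : HasSum (A.indicator (fun a : ℕ => (a : ℝ) / 2 ^ a)) x := by
    rw [hasSum_iff_tendsto_nat_of_nonneg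
      (fun a => Set.indicator_nonneg (fun a _ => by positivity) a),
      ← tendsto_add_atTop_iff_nat 1]
    have h2 : Tendsto (fun N : ℕ => x - ((N : ℝ) + 2) / 2 ^ N) atTop (𝓝 x) := by
      have := tendsto_level.const_sub x
      rwa [sub_zero] at this
    refine tendsto_of_tendsto_of_tendsto_of_le_of_le h2 tendsto_const_nhds (fun N => ?_)
      fun N => ?_
    · show x - ((N : ℝ) + 2) / 2 ^ N ≤ ∑ a ∈ range (N + 1), _
      rw [hsum N]
      have hp : (0 : ℝ) < 2 ^ N := by positivity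
      rw [sub_le_iff_le_add, ← add_div, le_div_iff₀ hp]
      linarith [(h N).2]
    · show ∑ a ∈ range (N + 1), _ ≤ x
      rw [hsum N]
      have hp : (0 : ℝ) < 2 ^ N := by positivity
      rw [div_le_iff₀ hp]
      linarith [(h N).1]
  refine ⟨fun hfin => ?_, hA, ?_⟩
  · obtain ⟨M, hM⟩ := hfin.bddAbove
    have h3 : HasSum (A.indicator (fun a : ℕ => (a : ℝ) / 2 ^ a))
        (∑ a ∈ range (M + 1), A.indicator (fun a : ℕ => (a : ℝ) / 2 ^ a) a) := by
      refine hasSum_sum_of_ne_finset_zero fun a ha => ?_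
      rw [Finset.mem_range] at ha
      exact Set.indicator_of_notMem (fun haA => by have := hM haA; omega) _
    have h4 := hs.unique h3
    rw [hsum M] at h4
    have hp : (0 : ℝ) < 2 ^ M := by positivity
    rw [eq_div_iff hp.ne'] at h4
    linarith [(h M).1]
  · exact hasSum_subtype_iff_indicator.2 hs

/-- every viable prefix has a viable extension -/
theorem node_up {N : ℕ} {P : Finset ℕ} {x : ℝ} (hP : Pl N P) (h : Node N P x) :
    ∃ Q, Pl (N + 1) Q ∧ (∀ a ≤ N, (a ∈ Q ↔ a ∈ P)) ∧ Node (N + 1) Q x := by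
  have h1 : 0 < cnt 1 N (2 ^ N * x - W N P) := by
    have h2 : cnt 0 N (2 ^ N * x - W N P) ≤ cnt 1 N (2 ^ N * x - W N P) := cnt_mono1 0 N _
    rw [cnt_zero_in N _ h] at h2
    omega
  obtain ⟨F, hF1, hF2, -⟩ := exF 1 N P x hP
  rw [← hF1, Finset.card_pos] at h1
  obtain ⟨Q, hQ⟩ := h1
  exact ⟨Q, hF2 Q hQ⟩

/-- A sequence of viable prefixes, each extending the former one, gives a representation. -/
theorem rep_of_seq {x : ℝ} (M : ℕ → ℕ) (P : ℕ → Finset ℕ) (hM : StrictMono M)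
    (hP : ∀ k, Pl (M k) (P k)) (hN : ∀ k, Node (M k) (P k) x)
    (hE : ∀ k, ∀ a ≤ M k, (a ∈ P (k + 1) ↔ a ∈ P k)) :
    IsRep x {a | ∃ k, a ∈ P k} ∧ ∀ k, ∀ a ≤ M k, ((∃ k, a ∈ P k) ↔ a ∈ P k) := by
  have h1 : ∀ k j, ∀ a ≤ M k, (a ∈ P (k + j) ↔ a ∈ P k) := by
    intro k j
    induction j with
    | zero => intro a _; exact Iff.rfl
    | succ j ih =>
      intro a ha
      rw [← add_assoc, hE (k + j) a (ha.trans (hM.monotone (Nat.le_add_right k j))), ih a ha]
  have h2 : ∀ k, ∀ a ≤ M k, ((∃ k, a ∈ P k) ↔ a ∈ P k) := by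
    intro k a ha
    constructor
    · rintro ⟨l, hl⟩
      rcases le_total k l with h | h
      · obtain ⟨j, rfl⟩ := Nat.exists_eq_add_of_le h
        exact (h1 k j a ha).1 hl
      · obtain ⟨j, rfl⟩ := Nat.exists_eq_add_of_le h
        exact (h1 l j a (hP l a hl).2).2 hl
    · intro h
      exact ⟨k, h⟩
  refine ⟨isRep_of_nodes (fun a ⟨k, hk⟩ => (hP k a hk).1) fun N => ?_, h2⟩
  have h3 : N ≤ M N := hM.le_apply
  refine node_down' h3 ?_
  have e : pre {a | ∃ k, a ∈ P k} (M N) = P N := by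
    ext a
    rw [mem_pre]
    constructor
    · rintro ⟨⟨-, h4⟩, h5⟩
      exact (h2 N a h4).1 h5
    · intro h4
      exact ⟨⟨(hP N a h4).1, (hP N a h4).2⟩, N, h4⟩
  rw [e]
  exact hN N

/-- every viable prefix extends to a representation -/
theorem rep_of_node {N : ℕ} {P : Finset ℕ} {x : ℝ} (hP : Pl N P) (h : Node N P x) :
    ∃ A : Set ℕ, IsRep x A ∧ ∀ a ≤ N, (a ∈ A ↔ a ∈ P) := by
  classical
  let S : ℕ → Type := fun k => {Q : Finset ℕ // Pl (N + k) Q ∧ Node (N + k) Q x}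
  have hnx : ∀ k (Q : S k), ∃ Q' : S (k + 1), ∀ a ≤ N + k, (a ∈ Q'.1 ↔ a ∈ Q.1) := by
    intro k Q
    obtain ⟨Q', h1, h2, h3⟩ := node_up Q.2.1 Q.2.2
    exact ⟨⟨Q', h1, h3⟩, h2⟩
  choose f hf using hnx
  let s : ∀ k, S k := fun k => Nat.rec (motive := S) ⟨P, hP, h⟩ (fun k Q => f k Q) k
  obtain ⟨h1, h2⟩ := rep_of_seq (x := x) (fun k => N + k) (fun k => (s k).1)
    (fun a b hab => by simpa using hab) (fun k => (s k).2.1) (fun k => (s k).2.2)
    (fun k a ha => hf k (s k) a ha)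
  exact ⟨_, h1, fun a ha => h2 0 a ha⟩

/-- at least `cnt N 0 x` representations -/
theorem encard_ge (N : ℕ) (x : ℝ) : (cnt N 0 x : ℕ∞) ≤ {A : Set ℕ | IsRep x A}.encard := by
  classical
  have e : x = 2 ^ 0 * x - (W 0 ∅ : ℝ) := by simp [W]
  obtain ⟨F, hF1, hF2, -⟩ := exF N 0 ∅ x (fun a ha => absurd ha (Finset.notMem_empty a))
  rw [← e] at hF1
  have hex : ∀ Q ∈ F, ∃ A : Set ℕ, IsRep x A ∧ ∀ a ≤ 0 + N, (a ∈ A ↔ a ∈ Q) :=
    fun Q hQ => rep_of_node (hF2 Q hQ).1 (hF2 Q hQ).2.2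
  choose! g hg1 hg2 using hex
  have hinj : Set.InjOn g (↑F : Set (Finset ℕ)) := by
    intro Q hQ Q' hQ' h
    ext a
    have b1 := (hF2 Q hQ).1 a
    have b2 := (hF2 Q' hQ').1 a
    constructor
    · intro ha
      rw [← hg2 Q' hQ' a (b1 ha).2, ← h, hg2 Q hQ a (b1 ha).2]
      exact ha
    · intro ha
      rw [← hg2 Q hQ a (b2 ha).2, h, hg2 Q' hQ' a (b2 ha).2]
      exact ha
  have hsub : g '' (↑F : Set (Finset ℕ)) ⊆ {A : Set ℕ | IsRep x A} := by
    rintro _ ⟨Q, hQ, rfl⟩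
    exact hg1 Q hQ
  calc (cnt N 0 x : ℕ∞) = (F.card : ℕ∞) := by rw [hF1]
    _ = (↑F : Set (Finset ℕ)).encard := (Set.encard_coe_eq_coe_finsetCard F).symm
    _ = (g '' (↑F : Set (Finset ℕ))).encard := hinj.encard_image.symm
    _ ≤ _ := Set.encard_le_encard hsub

/-- A good number has continuum many representations. -/
theorem Gd.continuum {x : ℝ} (hx : Gd x) (h0 : 0 < x) (h2 : x ≤ 2) :
    Cardinal.mk {A : Set ℕ // IsRep x A} = Cardinal.continuum := by
  classical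
  let S : Type := {q : ℕ × Finset ℕ // Pl q.1 q.2 ∧ Node q.1 q.2 x}
  have hnx : ∀ q : S, ∃ f : Bool → S, (f false).1.1 = (f true).1.1 ∧ (f false).1.2 ≠ (f true).1.2 ∧
      ∀ b, q.1.1 < (f b).1.1 ∧ ∀ a ≤ q.1.1, (a ∈ (f b).1.2 ↔ a ∈ q.1.2) := by
    intro q
    obtain ⟨k, Q, Q', hne, ⟨h3, h4, h5⟩, h6, h7, h8⟩ := hx.split q.2.1 q.2.2
    refine ⟨fun b => if b then ⟨(q.1.1 + (k + 1), Q'), h6, h8⟩ else ⟨(q.1.1 + (k + 1), Q), h3, h5⟩,
      rfl, hne, fun b => ?_⟩
    cases b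
    · exact ⟨by simp, h4⟩
    · exact ⟨by simp, h7⟩
  choose f hf1 hf2 hf3 using hnx
  have root : Node 0 ∅ x := by
    unfold Node
    simp only [W, Finset.sum_empty, pow_zero, one_mul, Nat.cast_zero, sub_zero, zero_add]
    exact ⟨h0, h2⟩
  let s : (ℕ → Bool) → ℕ → S := fun β k =>
    Nat.rec (motive := fun _ => S) ⟨(0, ∅), fun a ha => absurd ha (Finset.notMem_empty a), root⟩
      (fun k q => f q (β k)) k
  have hs : ∀ β k, s β (k + 1) = f (s β k) (β k) := fun β k => rfl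
  have hrep : ∀ β : ℕ → Bool, IsRep x {a | ∃ k, a ∈ (s β k).1.2} ∧
      ∀ k, ∀ a ≤ (s β k).1.1, ((∃ k, a ∈ (s β k).1.2) ↔ a ∈ (s β k).1.2) := by
    intro β
    refine rep_of_seq (fun k => (s β k).1.1) (fun k => (s β k).1.2)
      (strictMono_nat_of_lt_succ fun k => ?_) (fun k => (s β k).2.1) (fun k => (s β k).2.2)
      (fun k a ha => ?_)
    · rw [hs]
      exact (hf3 (s β k) (β k)).1
    · show a ∈ (s β (k + 1)).1.2 ↔ _
      rw [hs]
      exact (hf3 (s β k) (β k)).2 a ha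
  have hinj : Function.Injective (fun β : ℕ → Bool =>
      (⟨{a | ∃ k, a ∈ (s β k).1.2}, (hrep β).1⟩ : {A : Set ℕ // IsRep x A})) := by
    intro β γ hβγ
    have hset : ∀ a, (∃ k, a ∈ (s β k).1.2) ↔ (∃ k, a ∈ (s γ k).1.2) := by
      intro a
      have := congrArg (fun A : {A : Set ℕ // IsRep x A} => a ∈ A.1) hβγ
      exact iff_of_eq this
    by_contra hne
    have hex : ∃ k, β k ≠ γ k := by
      by_contra h
      push Not at h
      exact hne (funext h)
    have hmin := Nat.find_spec hex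
    have hlt : ∀ l < Nat.find hex, β l = γ l := fun l hl => by
      have := Nat.find_min hex hl
      push Not at this
      exact this
    set k := Nat.find hex with hk
    have heq : ∀ l ≤ k, s β l = s γ l := by
      intro l
      induction l with
      | zero => intro _; rfl
      | succ l ih =>
        intro hl
        rw [hs, hs, ih (by omega), hlt l (by omega)]
    have e1 : s β (k + 1) = f (s β k) (β k) := hs β k
    have e2 : s γ (k + 1) = f (s β k) (γ k) := by rw [hs, heq k le_rfl]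
    have hlev : (s β (k + 1)).1.1 = (s γ (k + 1)).1.1 := by
      rw [e1, e2]
      rcases Bool.eq_false_or_eq_true (β k) with h | h <;>
        rcases Bool.eq_false_or_eq_true (γ k) with h' | h' <;> rw [h, h']
      · exact (hf1 _).symm
      · exact hf1 _
    have hsets : (s β (k + 1)).1.2 = (s γ (k + 1)).1.2 := by
      ext a
      constructor
      · intro ha
        have hle := ((s β (k + 1)).2.1 a ha).2
        exact ((hrep γ).2 (k + 1) a (hlev ▸ hle)).1 ((hset a).1 ⟨k + 1, ha⟩)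
      · intro ha
        have hle := ((s γ (k + 1)).2.1 a ha).2
        exact ((hrep β).2 (k + 1) a (hlev ▸ hle)).1 ((hset a).2 ⟨k + 1, ha⟩)
    rw [e1, e2] at hsets
    rcases Bool.eq_false_or_eq_true (β k) with h | h <;>
      rcases Bool.eq_false_or_eq_true (γ k) with h' | h' <;> rw [h, h'] at hsets hmin
    · exact hmin rfl
    · exact hf2 _ hsets.symm
    · exact hf2 _ hsets
    · exact hmin rfl
  refine le_antisymm ?_ ?_
  · have h3 : Cardinal.mk {A : Set ℕ // IsRep x A} ≤ Cardinal.mk (Set ℕ) :=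
      Cardinal.mk_subtype_le _
    rwa [Cardinal.mk_set, Cardinal.mk_nat, Cardinal.two_power_aleph0] at h3
  · have h3 := Cardinal.mk_le_of_injective hinj
    rwa [← Cardinal.power_def, Cardinal.mk_bool, Cardinal.mk_nat, Cardinal.two_power_aleph0] at h3

end Pool.Agent.Helper50.RM
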