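import Pool.Agent.Helper50.RM.C

/-!
# Almost all numbers and almost all fractions
-/

namespace Pool.Agent.Helper50.RM

open Finset MeasureTheory Filter Topology

/-- `cnt k n r` depends only on `⌈2 ^ k * r⌉`. -/
theorem cnt_ceil (k : ℕ) : ∀ (n : ℕ) (r r' : ℝ), ⌈2 ^ k * r⌉ = ⌈2 ^ k * r'⌉ →
    cnt k n r = cnt k n r' := by
  induction k with
  | zero =>
    intro n r r' h
    rw [pow_zero, one_mul, one_mul] at h
    have h1 : (0 < r ∧ r ≤ (n : ℝ) + 2) ↔ (0 < r' ∧ r' ≤ (n : ℝ) + 2) := by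
      have e : ((n : ℝ) + 2) = (((n + 2 : ℕ) : ℤ) : ℝ) := by push_cast; ring
      have a1 : 0 < r ↔ 0 < r' := by
        rw [← Int.ceil_pos (a := r), ← Int.ceil_pos (a := r'), h]
      have a2 : r ≤ (n : ℝ) + 2 ↔ r' ≤ (n : ℝ) + 2 := by
        rw [e, ← Int.ceil_le, ← Int.ceil_le, h]
      rw [a1, a2]
    by_cases h2 : 0 < r ∧ r ≤ (n : ℝ) + 2
    · rw [cnt_zero_in n r h2, cnt_zero_in n r' (h1.1 h2)]
    · rw [cnt_out 0 n r h2, cnt_out 0 n r' (fun h3 => h2 (h1.2 h3))]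
  | succ k ih =>
    intro n r r' h
    rw [cnt_succ, cnt_succ]
    have e0 : ∀ s : ℝ, 2 ^ k * (2 * s) = 2 ^ (k + 1) * s := fun s => by ring
    have e1 : ∀ s : ℝ, 2 ^ k * (2 * s - (n + 1)) =
        2 ^ (k + 1) * s - (((2 ^ k * (n + 1) : ℕ) : ℤ) : ℝ) := fun s => by push_cast; ring
    congr 1
    · apply ih
      rw [e0, e0, h]
    · apply ih
      rw [e1, e1, Int.ceil_sub_intCast, Int.ceil_sub_intCast, h]

theorem ae_continuum : ∀ᵐ x : ℝ, x ∈ Set.Ioc (0 : ℝ) 2 →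
    Cardinal.mk {A : Set ℕ // IsRep x A} = Cardinal.continuum := by
  filter_upwards [ae_Gd] with x hx hmem
  exact hx.continuum hmem.1 hmem.2

/-- the set where the prefix with weight `w` at level `N` is not viable or splits -/
def Dg (N w : ℕ) : Set ℝ := {x | 2 ^ N * x - w ∉ U N}

theorem dense_interior_Dg (N w : ℕ) : Dense (interior (Dg N w)) := by
  rw [dense_iff_inter_open]
  intro O hO hne
  have hpos : 0 < volume O := hO.measure_pos volume hne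
  -- a good point of `O` which is not dyadic
  have hdy : ∀ᵐ x : ℝ, ∀ (k : ℕ) (j : ℤ), (2 : ℝ) ^ k * x ≠ j := by
    rw [ae_all_iff]
    intro k
    rw [ae_all_iff]
    intro j
    have h1 : {x : ℝ | (2 : ℝ) ^ k * x = j} ⊆ {(j : ℝ) / 2 ^ k} := by
      intro x hx
      rw [Set.mem_singleton_iff, eq_div_iff (by positivity), mul_comm]
      exact hx
    rw [ae_iff]
    simp only [not_not]
    exact measure_mono_null h1 (Real.volume_singleton)
  have h2 : ∃ᵐ x : ℝ, x ∈ O := by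
    rw [frequently_ae_mem_iff]
    exact hpos.ne'
  obtain ⟨y, hyO, hyG, hyd⟩ := (h2.and_eventually (ae_Gd.and hdy)).exists
  refine ⟨y, hyO, ?_⟩
  rw [mem_interior]
  -- the cell of `y` at level `N + k`
  have hcell : ∀ k : ℕ, IsOpen {x : ℝ | (⌈(2 : ℝ) ^ (N + k) * y⌉ : ℝ) - 1 < 2 ^ (N + k) * x ∧
      2 ^ (N + k) * x < ⌈(2 : ℝ) ^ (N + k) * y⌉} := fun k =>
    isOpen_Ioo.preimage (show Continuous fun x : ℝ => (2 : ℝ) ^ (N + k) * x by fun_prop)
  have hymem : ∀ k : ℕ, y ∈ {x : ℝ | (⌈(2 : ℝ) ^ (N + k) * y⌉ : ℝ) - 1 < 2 ^ (N + k) * x ∧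
      2 ^ (N + k) * x < ⌈(2 : ℝ) ^ (N + k) * y⌉} := fun k =>
    ⟨by linarith [Int.ceil_lt_add_one ((2 : ℝ) ^ (N + k) * y)],
      lt_of_le_of_ne (Int.le_ceil _) (hyd (N + k) _)⟩
  have hceil : ∀ k : ℕ, ∀ x ∈ {x : ℝ | (⌈(2 : ℝ) ^ (N + k) * y⌉ : ℝ) - 1 < 2 ^ (N + k) * x ∧
      2 ^ (N + k) * x < ⌈(2 : ℝ) ^ (N + k) * y⌉},
      cnt k N (2 ^ N * x - w) = cnt k N (2 ^ N * y - w) := by
    intro k x hx
    apply cnt_ceil
    have e : ∀ s : ℝ, (2 : ℝ) ^ k * (2 ^ N * s - w) =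
        2 ^ (N + k) * s - (((2 ^ k * w : ℕ) : ℤ) : ℝ) := fun s => by
      push_cast
      ring
    rw [e, e, Int.ceil_sub_intCast, Int.ceil_sub_intCast]
    congr 1
    rw [Int.ceil_eq_iff]
    exact ⟨hx.1, hx.2.le⟩
  by_cases hin : 0 < 2 ^ N * y - w ∧ 2 ^ N * y - w ≤ (N : ℝ) + 2
  · have h3 : ∃ k, ¬ cnt k N (2 ^ N * y - w) ≤ 1 := by
      by_contra h
      push Not at h
      exact hyG N w ⟨hin, h⟩
    obtain ⟨k, hk⟩ := h3
    refine ⟨_, fun x hx hxU => ?_, hcell k, hymem k⟩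
    have h4 := hxU.2 k
    rw [hceil k x hx] at h4
    exact hk h4
  · refine ⟨_, fun x hx hxU => ?_, hcell 0, hymem 0⟩
    have h4 := hceil 0 x hx
    rw [cnt_zero_in N _ hxU.1, cnt_out 0 N _ hin] at h4
    exact one_ne_zero h4

theorem residual_continuum : ∀ᶠ x : ℝ in residual ℝ, x ∈ Set.Ioc (0 : ℝ) 2 →
    Cardinal.mk {A : Set ℕ // IsRep x A} = Cardinal.continuum := by
  have h1 : ∀ᶠ x : ℝ in residual ℝ, ∀ N w : ℕ, x ∈ interior (Dg N w) := by
    rw [eventually_countable_forall]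
    intro N
    rw [eventually_countable_forall]
    intro w
    exact residual_of_dense_open isOpen_interior (dense_interior_Dg N w)
  filter_upwards [h1] with x hx hmem
  have hG : Gd x := fun N w => interior_subset (hx N w)
  exact hG.continuum hmem.1 hmem.2

/-- For every `m` there is an open set of full measure of numbers with `m` representations. -/
theorem open_full (m : ℕ) : ∃ O : Set ℝ, IsOpen O ∧ O ⊆ Set.Ioo 0 2 ∧
    volume (Set.Ioo (0 : ℝ) 2 \ O) = 0 ∧ ∀ x ∈ O, (m : ℕ∞) ≤ {A : Set ℕ | IsRep x A}.encard := by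
  refine ⟨Set.Ioo 0 2 ∩ ⋃ N, interior {x | m ≤ cnt N 0 x}, ?_, Set.inter_subset_left, ?_, ?_⟩
  · exact isOpen_Ioo.inter (isOpen_iUnion fun N => isOpen_interior)
  · have hdy : ∀ᵐ x : ℝ, ∀ (k : ℕ) (j : ℤ), (2 : ℝ) ^ k * x ≠ j := by
      rw [ae_all_iff]
      intro k
      rw [ae_all_iff]
      intro j
      have h1 : {x : ℝ | (2 : ℝ) ^ k * x = j} ⊆ {(j : ℝ) / 2 ^ k} := by
        intro x hx
        rw [Set.mem_singleton_iff, eq_div_iff (by positivity), mul_comm]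
        exact hx
      rw [ae_iff]
      simp only [not_not]
      exact measure_mono_null h1 (Real.volume_singleton)
    rw [measure_eq_zero_iff_ae_notMem]
    filter_upwards [ae_Gd, hdy] with y hyG hyd hmem
    obtain ⟨hy, hyO⟩ := hmem
    apply hyO
    refine ⟨hy, ?_⟩
    obtain ⟨N, hN⟩ := hyG.cnt_large hy.1 hy.2.le m
    rw [Set.mem_iUnion]
    refine ⟨N, ?_⟩
    rw [mem_interior]
    refine ⟨{x : ℝ | (⌈(2 : ℝ) ^ N * y⌉ : ℝ) - 1 < 2 ^ N * x ∧
      2 ^ N * x < ⌈(2 : ℝ) ^ N * y⌉}, fun x hx => ?_,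
      isOpen_Ioo.preimage (show Continuous fun x : ℝ => (2 : ℝ) ^ N * x by fun_prop), ?_⟩
    · have h1 : cnt N 0 x = cnt N 0 y := by
        apply cnt_ceil
        rw [Int.ceil_eq_iff]
        exact ⟨hx.1, hx.2.le⟩
      show m ≤ cnt N 0 x
      rw [h1]
      exact hN.le
    · exact ⟨by linarith [Int.ceil_lt_add_one ((2 : ℝ) ^ N * y)],
        lt_of_le_of_ne (Int.le_ceil _) (hyd N _)⟩
  · rintro x ⟨-, hx⟩
    rw [Set.mem_iUnion] at hx
    obtain ⟨N, hN⟩ := hx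
    have h0 : x ∈ {x | m ≤ cnt N 0 x} := interior_subset hN
    have h1 : m ≤ cnt N 0 x := h0
    exact le_trans (by exact_mod_cast h1) (encard_ge N x)

end Pool.Agent.Helper50.RM
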