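import Pool.Agent.Helper50.RM.A

/-!
# Quantitative decay of the measure of the states with a unique continuation

`UU n k`: the states at level `n` with a unique continuation at level `n + k`, `bb n k` its measure.
With `N = n + k` fixed, `bb` is nondecreasing in `n` and between `n = 2 ^ (j + 1) - 2` and
`2 ^ (j + 2) - 2` it grows by a factor of almost `e`: the two end segments of length `2` are enlarged
to two segments which cover (almost) all the states.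
-/

namespace Pool.Agent.Helper50.RM

open MeasureTheory Filter Topology

/-- the states at level `n` with a unique continuation at level `n + k` -/
def UU (n k : ℕ) : Set ℝ := {r | (0 < r ∧ r ≤ n + 2) ∧ cnt k n r ≤ 1}

theorem UU_sub (n k : ℕ) : UU n k ⊆ Set.Ioc 0 (n + 2) := fun _ h => h.1

theorem measurableSet_UU (n k : ℕ) : MeasurableSet (UU n k) := by
  have h : UU n k = Set.Ioc (0 : ℝ) (n + 2) ∩ cnt k n ⁻¹' Set.Iic 1 := by
    ext r
    simp only [UU, Set.mem_ofPred_eq, Set.mem_inter_iff, Set.mem_Ioc, Set.mem_preimage, Set.mem_Iic]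
  rw [h]
  exact measurableSet_Ioc.inter (measurable_cnt k n measurableSet_Iic)

theorem one_le_cnt {k n : ℕ} {r : ℝ} (h : 0 < r ∧ r ≤ n + 2) : 1 ≤ cnt k n r := by
  have h1 := cnt_mono (Nat.zero_le k) n r
  rw [cnt_zero_in n r h] at h1
  exact h1

theorem UU_step {n k : ℕ} {r : ℝ} (h : r ∈ UU n (k + 1)) :
    (2 * r ∈ UU (n + 1) k ∩ Set.Ioc 0 (n + 1)) ∨
      (2 * r - (n + 1) ∈ UU (n + 1) k ∩ Set.Ioc 2 (n + 3)) := by
  obtain ⟨⟨h0, h1⟩, hk⟩ := h
  have hn : (0 : ℝ) ≤ n := Nat.cast_nonneg n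
  rw [cnt_succ] at hk
  by_cases h2 : 2 * r ≤ n + 1
  · refine Or.inl ⟨⟨⟨by linarith, by push_cast; linarith⟩, by omega⟩, by linarith, h2⟩
  · push Not at h2
    by_cases h3 : 2 * r ≤ n + 3
    · exfalso
      have a1 : 1 ≤ cnt k (n + 1) (2 * r) := one_le_cnt ⟨by linarith, by push_cast; linarith⟩
      have a2 : 1 ≤ cnt k (n + 1) (2 * r - (n + 1)) :=
        one_le_cnt ⟨by linarith, by push_cast; linarith⟩
      omega
    · push Not at h3
      exact Or.inr ⟨⟨⟨by linarith, by push_cast; linarith⟩, by omega⟩, by linarith, by linarith⟩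

/-- the measure of `UU n k` -/
noncomputable def bb (n k : ℕ) : ℝ := volume.real (UU n k)

theorem bb_nonneg (n k : ℕ) : 0 ≤ bb n k := measureReal_nonneg

theorem bb_le (n k : ℕ) : bb n k ≤ n + 2 := by
  have h := measureReal_mono (μ := volume) (UU_sub n k)
    (by rw [Real.volume_Ioc]; exact ENNReal.ofReal_ne_top)
  rw [measureReal_def (s := Set.Ioc (0 : ℝ) (n + 2)), Real.volume_Ioc, sub_zero,
    ENNReal.toReal_ofReal (by positivity)] at h
  unfold bb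
  linarith

theorem bb_step (n k : ℕ) : bb n (k + 1) + (volume.real (UU (n + 1) k ∩ Set.Ioc 0 2) +
    volume.real (UU (n + 1) k ∩ Set.Ioc ((n + 1 : ℕ) : ℝ) ((n + 1 : ℕ) + 2))) / 2 ≤
      bb (n + 1) k := by
  have hn : (0 : ℝ) ≤ n := Nat.cast_nonneg n
  have hsub : UU n (k + 1) ⊆ {r : ℝ | 2 * r + 0 ∈ UU (n + 1) k ∩ Set.Ioc 0 (n + 1)} ∪
      {r : ℝ | 2 * r + (-(n + 1)) ∈ UU (n + 1) k ∩ Set.Ioc 2 (n + 3)} := by
    intro r hr
    rcases UU_step hr with h | h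
    · left
      rw [Set.mem_ofPred_eq, add_zero]
      exact h
    · right
      rw [Set.mem_ofPred_eq, ← sub_eq_add_neg]
      exact h
  have hf1 : volume {r : ℝ | 2 * r + 0 ∈ UU (n + 1) k ∩ Set.Ioc 0 (n + 1)} ≠ ⊤ := by
    refine fin_of_sub (u := 0) (v := n + 1) ?_
    rintro r ⟨-, h1, h2⟩
    exact ⟨by linarith, by linarith⟩
  have hf2 : volume {r : ℝ | 2 * r + (-(n + 1)) ∈ UU (n + 1) k ∩ Set.Ioc 2 (n + 3)} ≠ ⊤ := by
    refine fin_of_sub (u := 0) (v := n + 2) ?_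
    rintro r ⟨-, h1, h2⟩
    exact ⟨by linarith, by linarith⟩
  have h1 : bb n (k + 1) ≤ volume.real ({r : ℝ | 2 * r + 0 ∈ UU (n + 1) k ∩ Set.Ioc 0 (n + 1)} ∪
      {r : ℝ | 2 * r + (-(n + 1)) ∈ UU (n + 1) k ∩ Set.Ioc 2 (n + 3)}) :=
    measureReal_mono hsub (measure_union_ne_top hf1 hf2)
  have h2 := h1.trans (measureReal_union_le _ _)
  rw [vol_aff (by norm_num), vol_aff (by norm_num)] at h2
  have hd : ∀ u v u' v' : ℝ, v ≤ u' → volume.real (UU (n + 1) k ∩ Set.Ioc u v) +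
      volume.real (UU (n + 1) k ∩ Set.Ioc u' v') ≤ bb (n + 1) k := by
    intro u v u' v' huv
    have hdis : Disjoint (UU (n + 1) k ∩ Set.Ioc u v) (UU (n + 1) k ∩ Set.Ioc u' v') := by
      rw [Set.disjoint_left]
      rintro r ⟨-, h3, h4⟩ ⟨-, h5, h6⟩
      linarith
    rw [← measureReal_union hdis ((measurableSet_UU (n + 1) k).inter measurableSet_Ioc)
      (fin_of_sub Set.inter_subset_right) (fin_of_sub Set.inter_subset_right)]
    exact measureReal_mono (Set.union_subset Set.inter_subset_left Set.inter_subset_left)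
      (fin_of_sub (UU_sub (n + 1) k))
  have h3 := hd 0 2 2 (n + 3) le_rfl
  have h4 := hd 0 (n + 1) ((n + 1 : ℕ) : ℝ) ((n + 1 : ℕ) + 2) (by push_cast; exact le_rfl)
  rw [abs_of_pos (by norm_num : (0 : ℝ) < 2)] at h2
  linarith

theorem bb_mono1 (n k : ℕ) : bb n (k + 1) ≤ bb (n + 1) k := by
  have h1 := bb_step n k
  have h2 : 0 ≤ volume.real (UU (n + 1) k ∩ Set.Ioc 0 2) := measureReal_nonneg
  have h3 : 0 ≤ volume.real (UU (n + 1) k ∩ Set.Ioc ((n + 1 : ℕ) : ℝ) ((n + 1 : ℕ) + 2)) :=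
    measureReal_nonneg
  linarith

theorem bb_mono (n i k : ℕ) : bb n (i + k) ≤ bb (n + i) k := by
  induction i generalizing n with
  | zero => simp
  | succ i ih =>
    have h1 := bb_mono1 n (i + k)
    have h2 := ih (n + 1)
    rw [show i + 1 + k = i + k + 1 by ring, show n + (i + 1) = n + 1 + i by ring]
    exact h1.trans h2

/-- The end segments. -/
theorem ends_ge {j n k : ℕ} (hj : (2 : ℝ) ^ (j + 1) ≤ n + 1) (hj2 : (n : ℝ) + 2 ≤ 2 ^ (j + 2)) :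
    (2 ^ j)⁻¹ * (bb (n + j) k - j) ≤ volume.real (UU n (j + k) ∩ Set.Ioc 0 2) +
      volume.real (UU n (j + k) ∩ Set.Ioc (n : ℝ) (n + 2)) := by
  have hn : (0 : ℝ) ≤ n := Nat.cast_nonneg n
  have hp : (0 : ℝ) < 2 ^ j := by positivity
  -- the two segments at level `n + j`
  have h1 : {r : ℝ | 2 ^ j * r + 0 ∈ UU (n + j) k ∩ Set.Ioc 0 (2 ^ (j + 1))} ⊆
      UU n (j + k) ∩ Set.Ioc 0 2 := by
    rintro r ⟨h1, h2, h3⟩
    rw [add_zero] at h1 h2 h3
    have h4 : 0 < r := pos_of_mul_pos_right h2 hp.le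
    have h5 : r ≤ 2 := by
      rw [pow_succ] at h3
      exact le_of_mul_le_mul_left h3 hp
    refine ⟨⟨⟨h4, by linarith⟩, ?_⟩, h4, h5⟩
    rw [cnt_bot j k n r h4 (h3.trans hj)]
    exact h1.2
  have h2 := measureReal_mono (μ := volume) h1
    (fin_of_sub (Set.inter_subset_right (s := UU n (j + k)) (t := Set.Ioc (0 : ℝ) 2)))
  rw [vol_aff hp.ne', abs_of_pos hp] at h2
  set c : ℝ := (n + j : ℕ) + 2 - 2 ^ j * (n + 2) with hc
  have h3 : {r : ℝ | 2 ^ j * r + c ∈ UU (n + j) k ∩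
      Set.Ioc ((n + j : ℕ) + 2 - (2 : ℝ) ^ (j + 1)) ((n + j : ℕ) + 2)} ⊆
      UU n (j + k) ∩ Set.Ioc (n : ℝ) (n + 2) := by
    rintro r ⟨h1, h2, h3⟩
    have e : 2 ^ j * r + c = ((n + j : ℕ) : ℝ) + 2 - 2 ^ j * (n + 2 - r) := by rw [hc]; ring
    rw [e] at h1 h2 h3
    have h4 : 0 ≤ (n : ℝ) + 2 - r := by
      by_contra h
      push Not at h
      have := mul_neg_of_pos_of_neg hp h
      linarith
    have h5 : (n : ℝ) + 2 - r < 2 := by
      have : 2 ^ j * ((n : ℝ) + 2 - r) < 2 ^ j * 2 := by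
        rw [← pow_succ]
        linarith
      exact lt_of_mul_lt_mul_left this hp.le
    have h6 : 2 ^ j * ((n : ℝ) + 2 - r) < n + 1 := by linarith
    have h7 := cnt_top j k n ((n : ℝ) + 2 - r) h4 h6
    rw [show (n : ℝ) + 2 - (n + 2 - r) = r by ring] at h7
    refine ⟨⟨⟨by linarith, by linarith⟩, ?_⟩, by linarith, by linarith⟩
    rw [h7]
    exact h1.2
  have h4 := measureReal_mono (μ := volume) h3
    (fin_of_sub (Set.inter_subset_right (s := UU n (j + k)) (t := Set.Ioc (n : ℝ) (n + 2))))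
  rw [vol_aff hp.ne', abs_of_pos hp] at h4
  -- they cover almost everything
  have h5 : bb (n + j) k ≤ volume.real (UU (n + j) k ∩ Set.Ioc 0 (2 ^ (j + 1))) +
      volume.real (UU (n + j) k ∩
        Set.Ioc ((n + j : ℕ) + 2 - (2 : ℝ) ^ (j + 1)) ((n + j : ℕ) + 2)) + j := by
    have hsub : UU (n + j) k ⊆ (UU (n + j) k ∩ Set.Ioc 0 (2 ^ (j + 1))) ∪
        (UU (n + j) k ∩ Set.Ioc ((n + j : ℕ) + 2 - (2 : ℝ) ^ (j + 1)) ((n + j : ℕ) + 2)) ∪
        Set.Ioc ((2 : ℝ) ^ (j + 1)) (2 ^ (j + 1) + j) := by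
      intro r hr
      have a1 := hr.1.1
      have a2 := hr.1.2
      by_cases b1 : r ≤ 2 ^ (j + 1)
      · exact Or.inl (Or.inl ⟨hr, a1, b1⟩)
      · push Not at b1
        by_cases b2 : ((n + j : ℕ) : ℝ) + 2 - (2 : ℝ) ^ (j + 1) < r
        · exact Or.inl (Or.inr ⟨hr, b2, a2⟩)
        · push Not at b2
          right
          refine ⟨b1, b2.trans ?_⟩
          push_cast
          have : (2 : ℝ) ^ (j + 2) = 2 ^ (j + 1) + 2 ^ (j + 1) := by ring
          linarith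
    have f1 : volume (UU (n + j) k ∩ Set.Ioc 0 (2 ^ (j + 1))) ≠ ⊤ :=
      fin_of_sub Set.inter_subset_right
    have f2 : volume (UU (n + j) k ∩
        Set.Ioc ((n + j : ℕ) + 2 - (2 : ℝ) ^ (j + 1)) ((n + j : ℕ) + 2)) ≠ ⊤ :=
      fin_of_sub Set.inter_subset_right
    have f3 : volume (Set.Ioc ((2 : ℝ) ^ (j + 1)) (2 ^ (j + 1) + j)) ≠ ⊤ :=
      fin_of_sub subset_rfl
    have g1 := measureReal_mono hsub (measure_union_ne_top (measure_union_ne_top f1 f2) f3)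
    have g2 := measureReal_union_le (μ := volume) ((UU (n + j) k ∩ Set.Ioc 0 (2 ^ (j + 1))) ∪
        (UU (n + j) k ∩ Set.Ioc ((n + j : ℕ) + 2 - (2 : ℝ) ^ (j + 1)) ((n + j : ℕ) + 2)))
      (Set.Ioc ((2 : ℝ) ^ (j + 1)) (2 ^ (j + 1) + j))
    have g3 := measureReal_union_le (μ := volume) (UU (n + j) k ∩ Set.Ioc 0 (2 ^ (j + 1)))
        (UU (n + j) k ∩ Set.Ioc ((n + j : ℕ) + 2 - (2 : ℝ) ^ (j + 1)) ((n + j : ℕ) + 2))
    have g4 : volume.real (Set.Ioc ((2 : ℝ) ^ (j + 1)) (2 ^ (j + 1) + j)) = j := by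
      rw [measureReal_def, Real.volume_Ioc, add_sub_cancel_left,
        ENNReal.toReal_ofReal (Nat.cast_nonneg j)]
    unfold bb
    linarith
  have h6 : (2 ^ j)⁻¹ * (bb (n + j) k - j) ≤ (2 ^ j)⁻¹ *
      (volume.real (UU (n + j) k ∩ Set.Ioc 0 (2 ^ (j + 1))) +
      volume.real (UU (n + j) k ∩
        Set.Ioc ((n + j : ℕ) + 2 - (2 : ℝ) ^ (j + 1)) ((n + j : ℕ) + 2))) :=
    mul_le_mul_of_nonneg_left (by linarith) (inv_nonneg.2 hp.le)
  rw [mul_add] at h6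
  linarith

/-- One step of the recursion. -/
theorem bb_rec {j n k : ℕ} (hj : 2 ^ (j + 1) ≤ n + 2) (hj2 : n + 3 ≤ 2 ^ (j + 2)) :
    bb n (j + k + 1) - j ≤ (1 - (2 ^ (j + 1))⁻¹) * (bb (n + 1) (j + k) - j) := by
  have hj' : (2 : ℝ) ^ (j + 1) ≤ ((n + 1 : ℕ) : ℝ) + 1 := by
    have : ((2 ^ (j + 1) : ℕ) : ℝ) ≤ ((n + 2 : ℕ) : ℝ) := by exact_mod_cast hj
    push_cast at this ⊢
    linarith
  have hj2' : ((n + 1 : ℕ) : ℝ) + 2 ≤ 2 ^ (j + 2) := by
    have : ((n + 3 : ℕ) : ℝ) ≤ ((2 ^ (j + 2) : ℕ) : ℝ) := by exact_mod_cast hj2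
    push_cast at this ⊢
    linarith
  have h1 := bb_step n (j + k)
  have h2 := ends_ge (k := k) hj' hj2'
  have h3 := bb_mono (n + 1) j k
  have hp : (0 : ℝ) < 2 ^ j := by positivity
  have h4 : (2 ^ j)⁻¹ * (bb (n + 1) (j + k) - j) ≤ (2 ^ j)⁻¹ * (bb (n + 1 + j) k - j) :=
    mul_le_mul_of_nonneg_left (by linarith) (inv_nonneg.2 hp.le)
  have h5 : (1 - ((2 : ℝ) ^ (j + 1))⁻¹) * (bb (n + 1) (j + k) - j) =
      (bb (n + 1) (j + k) - j) - (2 ^ j)⁻¹ * (bb (n + 1) (j + k) - j) / 2 := by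
    rw [pow_succ, mul_inv]
    ring
  rw [h5]
  linarith

/-- The recursion along a dyadic block. -/
theorem bb_block_aux (j N : ℕ) (hN : 2 ^ (j + 2) - 2 + j ≤ N) : ∀ i ≤ 2 ^ (j + 1),
    bb (2 ^ (j + 2) - 2 - i) (N - (2 ^ (j + 2) - 2 - i)) - j ≤
      (1 - (2 ^ (j + 1))⁻¹) ^ i * (bb (2 ^ (j + 2) - 2) (N - (2 ^ (j + 2) - 2)) - j) := by
  have hpow : 2 ^ (j + 2) = 2 * 2 ^ (j + 1) := by ring
  have hge : 2 ≤ 2 ^ (j + 1) := by
    calc 2 = 2 ^ 1 := by norm_num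
      _ ≤ 2 ^ (j + 1) := Nat.pow_le_pow_right (by norm_num) (by omega)
  intro i
  induction i with
  | zero => intro _; simp
  | succ i ih =>
    intro hi
    have h1 := ih (by omega)
    obtain ⟨m, hm⟩ : ∃ m, m = 2 ^ (j + 2) - 2 - (i + 1) := ⟨_, rfl⟩
    have hm1 : 2 ^ (j + 2) - 2 - i = m + 1 := by omega
    rw [hm1] at h1
    rw [← hm]
    have h2 : bb m (N - m) - j ≤
        (1 - (2 ^ (j + 1))⁻¹) * (bb (m + 1) (N - (m + 1)) - j) := by
      obtain ⟨k, hk⟩ : ∃ k, N - (m + 1) = j + k := ⟨N - (m + 1) - j, by omega⟩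
      have e1 : N - m = j + k + 1 := by omega
      rw [hk, e1]
      exact bb_rec (by omega) (by omega)
    have h0 : (0 : ℝ) ≤ 1 - ((2 : ℝ) ^ (j + 1))⁻¹ := by
      rw [sub_nonneg]
      exact inv_le_one_of_one_le₀ (one_le_pow₀ (by norm_num))
    refine h2.trans ((mul_le_mul_of_nonneg_left h1 h0).trans (le_of_eq ?_))
    rw [pow_succ (1 - ((2 : ℝ) ^ (j + 1))⁻¹) i]
    ring

/-- Decay by the factor `3 / 8` along a dyadic block. -/
theorem bb_block (j N : ℕ) (hN : 2 ^ (j + 2) - 2 + j ≤ N) :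
    bb (2 ^ (j + 1) - 2) (N - (2 ^ (j + 1) - 2)) ≤
      j + 3 / 8 * bb (2 ^ (j + 2) - 2) (N - (2 ^ (j + 2) - 2)) := by
  have h1 := bb_block_aux j N hN (2 ^ (j + 1)) le_rfl
  have e : 2 ^ (j + 2) - 2 - 2 ^ (j + 1) = 2 ^ (j + 1) - 2 := by
    have hpow : 2 ^ (j + 2) = 2 * 2 ^ (j + 1) := by ring
    omega
  rw [e] at h1
  set X := bb (2 ^ (j + 2) - 2) (N - (2 ^ (j + 2) - 2)) with hX
  have hX0 : 0 ≤ X := bb_nonneg _ _
  set q : ℝ := (1 - ((2 : ℝ) ^ (j + 1))⁻¹) ^ (2 ^ (j + 1)) with hq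
  have hq0 : 0 ≤ q := by
    refine pow_nonneg ?_ _
    rw [sub_nonneg]
    exact inv_le_one_of_one_le₀ (one_le_pow₀ (by norm_num))
  have hq1 : q ≤ 3 / 8 := by
    have h2 : (1 - ((2 : ℝ) ^ (j + 1))⁻¹) ≤ Real.exp (-((2 : ℝ) ^ (j + 1))⁻¹) := by
      have := Real.add_one_le_exp (-((2 : ℝ) ^ (j + 1))⁻¹)
      linarith
    have h3 : q ≤ Real.exp (-((2 : ℝ) ^ (j + 1))⁻¹) ^ (2 ^ (j + 1)) := by
      refine pow_le_pow_left₀ ?_ h2 _
      rw [sub_nonneg]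
      exact inv_le_one_of_one_le₀ (one_le_pow₀ (by norm_num))
    rw [← Real.exp_nat_mul] at h3
    have h4 : ((2 ^ (j + 1) : ℕ) : ℝ) * (-((2 : ℝ) ^ (j + 1))⁻¹) = -1 := by
      push_cast
      field_simp
    rw [h4] at h3
    have h5 := Real.exp_neg_one_lt_d9
    linarith
  have hj0 : (0 : ℝ) ≤ j := Nat.cast_nonneg j
  have h2 : q * (X - j) ≤ 3 / 8 * X := by
    have h3 : q * (X - j) ≤ q * X := mul_le_mul_of_nonneg_left (by linarith) hq0
    have h4 : q * X ≤ 3 / 8 * X := mul_le_mul_of_nonneg_right hq1 hX0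
    linarith
  linarith

/-- Decay along many blocks. -/
theorem bb_decay (M : ℕ) : ∀ (j N : ℕ), 2 ^ (j + M + 1) + j + M ≤ N →
    bb (2 ^ (j + 1) - 2) (N - (2 ^ (j + 1) - 2)) ≤ 2 * j + 2 + 2 ^ (j + 1) * (3 / 4 : ℝ) ^ M := by
  induction M with
  | zero =>
    intro j N _
    have h := bb_le (2 ^ (j + 1) - 2) (N - (2 ^ (j + 1) - 2))
    have hge : 2 ≤ 2 ^ (j + 1) := by
      calc 2 = 2 ^ 1 := by norm_num
        _ ≤ 2 ^ (j + 1) := Nat.pow_le_pow_right (by norm_num) (by omega)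
    rw [Nat.cast_sub hge] at h
    push_cast at h
    have hj0 : (0 : ℝ) ≤ j := Nat.cast_nonneg j
    rw [pow_zero, mul_one]
    linarith
  | succ M ih =>
    intro j N hN
    have e : j + (M + 1) + 1 = j + 1 + M + 1 := by ring
    rw [e] at hN
    have h1 := ih (j + 1) N (by omega)
    have hle : 2 ^ (j + 2) ≤ 2 ^ (j + 1 + M + 1) := Nat.pow_le_pow_right (by norm_num) (by omega)
    have h2 := bb_block j N (by
      generalize 2 ^ (j + 2) = A at hle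
      generalize 2 ^ (j + 1 + M + 1) = B at hle hN
      omega)
    rw [show j + 1 + 1 = j + 2 by ring] at h1
    push_cast at h1
    have hj0 : (0 : ℝ) ≤ j := Nat.cast_nonneg j
    have h3 : (2 : ℝ) ^ (j + 1) * (3 / 4) ^ (M + 1) = 3 / 8 * (2 ^ (j + 2) * (3 / 4) ^ M) := by
      rw [pow_succ (2 : ℝ) (j + 1), pow_succ (3 / 4 : ℝ) M]
      ring
    rw [h3]
    linarith

end Pool.Agent.Helper50.RM
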