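import Pool.Agent.Helper50.RM.E

/-!
# The states with a unique continuation in unit intervals

`ws k n` is the list of the weights of the continuations from level `n` to level `n + k`.
-/

set_option autoImplicit false

namespace Pool.Agent.Helper50.RM

open MeasureTheory Filter Topology

/-- the weights of the continuations from level `n` to level `n + k` -/
def ws : ℕ → ℕ → List ℕ
  | 0, _ => [0]
  | k + 1, n => ws k (n + 1) ++ (ws k (n + 1)).map (fun w => w + 2 ^ k * (n + 1))

theorem cnt_ws (k l : ℕ) : ∀ (n : ℕ) (r : ℝ),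
    cnt (k + l) n r = ((ws k n).map (fun w : ℕ => cnt l (n + k) (2 ^ k * r - w))).sum := by
  induction k with
  | zero =>
    intro n r
    simp [ws]
  | succ k ih =>
    intro n r
    rw [show k + 1 + l = k + l + 1 by ring, cnt_succ, ih (n + 1), ih (n + 1), ws, List.map_append,
      List.sum_append, List.map_map]
    have e : n + 1 + k = n + (k + 1) := by ring
    rw [e]
    congr 1
    · congr 1
      apply List.map_congr_left
      intro w _
      congr 1
      ring
    · congr 1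
      apply List.map_congr_left
      intro w _
      simp only [Function.comp]
      congr 1
      push_cast
      ring

theorem list_le {α : Type} (L : List α) (f : α → ℕ) {w : α} (hw : w ∈ L) :
    f w ≤ (L.map f).sum := by
  induction L with
  | nil => exact absurd hw (List.not_mem_nil)
  | cons a L ih =>
    rw [List.map_cons, List.sum_cons]
    rcases List.mem_cons.1 hw with h | h
    · rw [h]
      omega
    · have := ih h
      omega

theorem list_le_two {α : Type} (L : List α) (f : α → ℕ) {w w' : α} (hw : w ∈ L) (hw' : w' ∈ L)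
    (hne : w ≠ w') : f w + f w' ≤ (L.map f).sum := by
  induction L with
  | nil => exact absurd hw (List.not_mem_nil)
  | cons a L ih =>
    rw [List.map_cons, List.sum_cons]
    rcases List.mem_cons.1 hw with h | h
    · rcases List.mem_cons.1 hw' with h' | h'
      · exact absurd (h.trans h'.symm) hne
      · have := list_le L f h'
        rw [h]
        omega
    · rcases List.mem_cons.1 hw' with h' | h'
      · have := list_le L f h
        rw [h']
        omega
      · have := ih h h'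
        omega

theorem list_exists {α : Type} (L : List α) (f : α → ℕ) (h : 1 ≤ (L.map f).sum) :
    ∃ w ∈ L, 1 ≤ f w := by
  by_contra hcon
  push Not at hcon
  have h1 : ∀ x ∈ L.map f, x = 0 := by
    intro x hx
    obtain ⟨w, hw, rfl⟩ := List.mem_map.1 hx
    have := hcon w hw
    omega
  rw [List.sum_eq_zero h1] at h
  omega

theorem card_le_two_of {F : Finset ℕ} (h : ∀ a ∈ F, ∀ b ∈ F, ∀ c ∈ F, a < b → b < c → False) :
    F.card ≤ 2 := by
  by_contra hcon
  rw [not_le, Finset.two_lt_card] at hcon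
  obtain ⟨a, ha, b, hb, c, hc, hab, hac, hbc⟩ := hcon
  rcases lt_or_gt_of_ne hab with h1 | h1 <;> rcases lt_or_gt_of_ne hac with h2 | h2 <;>
    rcases lt_or_gt_of_ne hbc with h3 | h3
  · exact h a ha b hb c hc h1 h3
  · exact h a ha c hc b hb h2 h3
  · omega
  · exact h c hc a ha b hb h2 h1
  · exact h b hb a ha c hc h1 h2
  · omega
  · exact h b hb c hc a ha h3 h2
  · exact h c hc b hb a ha h3 h1

/-- The part of `UU n (k + l)` in an interval of length `1`. -/
theorem unit_le (k l n : ℕ) (s : ℝ) :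
    volume.real (UU n (k + l) ∩ Set.Ioc (s - 1) s) ≤
      2 * (2 ^ k / ((n + k : ℕ) + 2) + 2) * ((2 ^ k)⁻¹ * bb (n + k) l) := by
  classical
  obtain ⟨T, hTdef⟩ : ∃ T : ℝ, T = ((n + k : ℕ) : ℝ) + 2 := ⟨_, rfl⟩
  have hT : 0 < T := by rw [hTdef]; positivity
  rw [← hTdef]
  have hp : (0 : ℝ) < 2 ^ k := by positivity
  set V : Finset ℕ := (ws k n).toFinset.filter (fun w : ℕ =>
    ∃ r : ℝ, (s - 1 < r ∧ r ≤ s) ∧ (0 < 2 ^ k * r - w ∧ 2 ^ k * r - w ≤ T) ∧
      ∀ w' ∈ ws k n, w' ≠ w → ¬ (0 < 2 ^ k * r - (w' : ℝ) ∧ 2 ^ k * r - w' ≤ T)) with hV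
  have hsub : UU n (k + l) ∩ Set.Ioc (s - 1) s ⊆
      ⋃ w ∈ V, {r : ℝ | 2 ^ k * r + (-(w : ℝ)) ∈ UU (n + k) l} := by
    rintro r ⟨hr, hrs⟩
    have h1 : 1 ≤ cnt (k + l) n r := one_le_cnt hr.1
    have h2 : cnt (k + l) n r ≤ 1 := hr.2
    rw [cnt_ws] at h1 h2
    obtain ⟨w, hw, hw1⟩ := list_exists _ _ h1
    have hrange : ∀ w : ℕ, 1 ≤ cnt l (n + k) (2 ^ k * r - w) →
        (0 < 2 ^ k * r - (w : ℝ) ∧ 2 ^ k * r - w ≤ T) := by
      intro w hw
      by_contra hcon
      rw [hTdef] at hcon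
      rw [cnt_out l (n + k) _ hcon] at hw
      omega
    rw [Set.mem_iUnion₂]
    refine ⟨w, ?_, ?_⟩
    · rw [hV, Finset.mem_filter, List.mem_toFinset]
      refine ⟨hw, r, hrs, hrange w hw1, fun w' hw' hne hin => ?_⟩
      rw [hTdef] at hin
      have h3 : 1 ≤ cnt l (n + k) (2 ^ k * r - w') := one_le_cnt hin
      have h4 := list_le_two (ws k n) (fun w : ℕ => cnt l (n + k) (2 ^ k * r - w)) hw' hw hne
      omega
    · rw [Set.mem_ofPred_eq, ← sub_eq_add_neg]
      have h3 := hrange w hw1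
      rw [hTdef] at h3
      refine ⟨h3, ?_⟩
      have h4 := list_le (ws k n) (fun w : ℕ => cnt l (n + k) (2 ^ k * r - w)) hw
      omega
  -- the number of the weights
  have hcard : (V.card : ℝ) ≤ 2 * (2 ^ k / T + 2) := by
    set g : ℕ → ℤ := fun w => ⌊((w : ℝ) + T - 2 ^ k * (s - 1)) / T⌋ with hg
    have h1 : V.card ≤ 2 * (V.image g).card := by
      refine Finset.card_le_mul_card_image V 2 ?_
      intro v _
      apply card_le_two_of
      intro a ha b hb c hc hab hbc
      rw [Finset.mem_filter] at ha hb hc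
      have h2 : (c : ℝ) < a + T := by
        have h3 : ⌊((c : ℝ) + T - 2 ^ k * (s - 1)) / T⌋ =
            ⌊((a : ℝ) + T - 2 ^ k * (s - 1)) / T⌋ := hc.2.trans ha.2.symm
        have h4 := Int.lt_floor_add_one (((a : ℝ) + T - 2 ^ k * (s - 1)) / T)
        have h5 := Int.floor_le (((c : ℝ) + T - 2 ^ k * (s - 1)) / T)
        have h6 : ((c : ℝ) + T - 2 ^ k * (s - 1)) / T <
            ((a : ℝ) + T - 2 ^ k * (s - 1)) / T + 1 := by
          have h7 : (⌊((c : ℝ) + T - 2 ^ k * (s - 1)) / T⌋ : ℝ) =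
              ⌊((a : ℝ) + T - 2 ^ k * (s - 1)) / T⌋ := by
            rw [h3]
          have h8 : (⌊((c : ℝ) + T - 2 ^ k * (s - 1)) / T⌋ : ℝ) ≤
              ((c : ℝ) + T - 2 ^ k * (s - 1)) / T := h5
          -- both in the same unit interval
          have h9 := Int.floor_le (((a : ℝ) + T - 2 ^ k * (s - 1)) / T)
          have h10 := Int.lt_floor_add_one (((c : ℝ) + T - 2 ^ k * (s - 1)) / T)
          linarith
        rw [div_add_one hT.ne', div_lt_div_iff_of_pos_right hT] at h6
        linarith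
      rw [hV, Finset.mem_filter, List.mem_toFinset] at ha hb hc
      obtain ⟨r, -, ⟨h3, h4⟩, h5⟩ := hb.1.2
      have hab' : (a : ℝ) < b := by exact_mod_cast hab
      have hbc' : (b : ℝ) < c := by exact_mod_cast hbc
      have h6 := h5 a ha.1.1 hab.ne
      have h7 := h5 c hc.1.1 hbc.ne'
      rw [not_and, not_le] at h6
      have h8 := h6 (by linarith)
      apply h7
      constructor
      · linarith
      · linarith
    have h2 : V.image g ⊆ Finset.Icc 0 ⌊(2 : ℝ) ^ k / T + 1⌋ := by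
      intro v hv
      obtain ⟨w, hw, rfl⟩ := Finset.mem_image.1 hv
      rw [hV, Finset.mem_filter] at hw
      obtain ⟨r, ⟨h3, h4⟩, ⟨h5, h6⟩, -⟩ := hw.2
      rw [Finset.mem_Icc]
      have h7 : 2 ^ k * (s - 1) < 2 ^ k * r := mul_lt_mul_of_pos_left h3 hp
      have h8 : 2 ^ k * r ≤ 2 ^ k * s := mul_le_mul_of_nonneg_left h4 hp.le
      constructor
      · apply Int.floor_nonneg.2
        apply div_nonneg _ hT.le
        linarith
      · apply Int.floor_mono
        rw [div_add_one hT.ne', div_le_div_iff_of_pos_right hT]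
        linarith
    have h3 : ((V.image g).card : ℝ) ≤ 2 ^ k / T + 2 := by
      have h4 := Finset.card_le_card h2
      rw [Int.card_Icc, sub_zero] at h4
      have h5 : (0 : ℤ) ≤ ⌊(2 : ℝ) ^ k / T + 1⌋ := Int.floor_nonneg.2 (by positivity)
      have h6 : (((⌊(2 : ℝ) ^ k / T + 1⌋ + 1).toNat : ℕ) : ℝ) = (⌊(2 : ℝ) ^ k / T + 1⌋ : ℝ) + 1 := by
        have h7 : (((⌊(2 : ℝ) ^ k / T + 1⌋ + 1).toNat : ℕ) : ℤ) = ⌊(2 : ℝ) ^ k / T + 1⌋ + 1 :=
          Int.toNat_of_nonneg (by omega)
        exact_mod_cast h7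
      have h8 : ((V.image g).card : ℝ) ≤ (((⌊(2 : ℝ) ^ k / T + 1⌋ + 1).toNat : ℕ) : ℝ) := by
        exact_mod_cast h4
      rw [h6] at h8
      have h9 := Int.floor_le ((2 : ℝ) ^ k / T + 1)
      linarith
    have h4 : (V.card : ℝ) ≤ 2 * ((V.image g).card : ℝ) := by exact_mod_cast h1
    linarith
  have hfin : ∀ w : ℕ, volume {r : ℝ | 2 ^ k * r + (-(w : ℝ)) ∈ UU (n + k) l} ≠ ⊤ := by
    intro w
    refine fin_of_sub (u := (w - 1) / 2 ^ k) (v := (w + T) / 2 ^ k) ?_
    rintro r ⟨⟨h1, h2⟩, -⟩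
    rw [← hTdef] at h2
    constructor
    · rw [div_lt_iff₀ hp]
      linarith
    · rw [le_div_iff₀ hp]
      linarith
  have h1 := measureReal_mono (μ := volume) hsub
    (measure_biUnion_lt_top V.finite_toSet (fun w _ => (hfin w).lt_top)).ne
  refine h1.trans ((measureReal_biUnion_finset_le V _).trans ?_)
  have h2 : ∀ w ∈ V, volume.real {r : ℝ | 2 ^ k * r + (-(w : ℝ)) ∈ UU (n + k) l} =
      (2 ^ k)⁻¹ * bb (n + k) l := by
    intro w _
    rw [vol_aff hp.ne', abs_of_pos hp]
    rfl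
  rw [Finset.sum_congr rfl h2, Finset.sum_const, nsmul_eq_mul]
  exact mul_le_mul_of_nonneg_right hcard (mul_nonneg (inv_nonneg.2 hp.le) (bb_nonneg _ _))

end Pool.Agent.Helper50.RM
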