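import Pool.Agent.Helper50.RM.D

/-!
# MP_4546c4_nt: a comeagre set of full measure with continuum many representations
-/

set_option autoImplicit false

namespace Pool.Agent.Helper50.RM

open MeasureTheory Filter Topology

/-- a good number which is not dyadic is in the interior of every `Dg N w` -/
theorem Gd.mem_interior {y : ℝ} (hyG : Gd y) (hyd : ∀ (k : ℕ) (j : ℤ), (2 : ℝ) ^ k * y ≠ j)
    (N w : ℕ) : y ∈ interior (Dg N w) := by
  rw [_root_.mem_interior]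
  have hcell : ∀ k : ℕ, IsOpen {x : ℝ | (⌈(2 : ℝ) ^ (N + k) * y⌉ : ℝ) - 1 < 2 ^ (N + k) * x ∧
      2 ^ (N + k) * x < ⌈(2 : ℝ) ^ (N + k) * y⌉} := fun k =>
    isOpen_Ioo.preimage (show Continuous fun x : ℝ => (2 : ℝ) ^ (N + k) * x by fun_prop)
  have hymem : ∀ k : ℕ, y ∈ {x : ℝ | (⌈(2 : ℝ) ^ (N + k) * y⌉ : ℝ) - 1 < 2 ^ (N + k) * x ∧
      2 ^ (N + k) * x < ⌈(2 : ℝ) ^ (N + k) * y⌉} := fun k =>
    ⟨by linarith [Int.ceil_lt_add_one ((2 : ℝ) ^ (N + k) * y)],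
      lt_of_le_of_ne (Int.le_ceil _) (hyd (N + k) _)⟩
  have hceil : ∀ k : ℕ, ∀ x ∈ {x : ℝ | (⌈(2 : ℝ) ^ (N + k) * y⌉ : ℝ) - 1 < 2 ^ (N + k) * x ∧
      2 ^ (N + k) * x < ⌈(2 : ℝ) ^ (N + k) * y⌉},
      cnt k N (2 ^ N * x - w) = cnt k N (2 ^ N * y - w) := by
    intro k x hx
    apply cnt_ceil
    have e : ∀ s : ℝ, (2 : ℝ) ^ k * (2 ^ N * s - w) =
        2 ^ (N + k) * s - (((2 ^ k * w : ℕ) : ℤ) : ℝ) := fun s => by
      push_cast
      ring
    rw [e, e, Int.ceil_sub_intCast, Int.ceil_sub_intCast]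
    congr 1
    rw [Int.ceil_eq_iff]
    exact ⟨hx.1, hx.2.le⟩
  by_cases hin : 0 < 2 ^ N * y - w ∧ 2 ^ N * y - w ≤ (N : ℝ) + 2
  · have h3 : ∃ k, ¬ cnt k N (2 ^ N * y - w) ≤ 1 := by
      by_contra h
      push Not at h
      exact hyG N w ⟨hin, h⟩
    obtain ⟨k, hk⟩ := h3
    refine ⟨_, fun x hx hxU => ?_, hcell k, hymem k⟩
    have h4 := hxU.2 k
    rw [hceil k x hx] at h4
    exact hk h4
  · refine ⟨_, fun x hx hxU => ?_, hcell 0, hymem 0⟩
    have h4 := hceil 0 x hx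
    rw [cnt_zero_in N _ hxU.1, cnt_out 0 N _ hin] at h4
    exact one_ne_zero h4

/-- The numbers in `(0, 2)` with continuum many representations contain a `G_δ` set of full
measure. -/
theorem gdelta_continuum : ∃ G : Set ℝ, IsGδ G ∧ G ⊆ Set.Ioo 0 2 ∧
    volume (Set.Ioo (0 : ℝ) 2 \ G) = 0 ∧
    ∀ x ∈ G, Cardinal.mk {A : Set ℕ // IsRep x A} = Cardinal.continuum := by
  refine ⟨Set.Ioo 0 2 ∩ ⋂ (N : ℕ) (w : ℕ), interior (Dg N w), ?_, Set.inter_subset_left, ?_, ?_⟩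
  · exact isOpen_Ioo.isGδ.inter
      (IsGδ.iInter fun N => IsGδ.iInter fun w => isOpen_interior.isGδ)
  · have hdy : ∀ᵐ x : ℝ, ∀ (k : ℕ) (j : ℤ), (2 : ℝ) ^ k * x ≠ j := by
      rw [ae_all_iff]
      intro k
      rw [ae_all_iff]
      intro j
      have h1 : {x : ℝ | (2 : ℝ) ^ k * x = j} ⊆ {(j : ℝ) / 2 ^ k} := by
        intro x hx
        rw [Set.mem_singleton_iff, eq_div_iff (by positivity), mul_comm]
        exact hx
      rw [ae_iff]
      simp only [not_not]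
      exact measure_mono_null h1 (Real.volume_singleton)
    rw [measure_eq_zero_iff_ae_notMem]
    filter_upwards [ae_Gd, hdy] with y hyG hyd hmem
    obtain ⟨hy, hyO⟩ := hmem
    apply hyO
    refine ⟨hy, ?_⟩
    rw [Set.mem_iInter₂]
    exact fun N w => hyG.mem_interior hyd N w
  · rintro x ⟨hx, hx2⟩
    rw [Set.mem_iInter₂] at hx2
    have hG : Gd x := fun N w => interior_subset (hx2 N w)
    exact hG.continuum hx.1 hx.2.le

end Pool.Agent.Helper50.RM
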