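import Pool.Agent.Helper50.RM.D
import Pool.Agent.Helper50.RM.F

/-!
# The mean of the reciprocal of the number of prefixes
-/

set_option autoImplicit false

namespace Pool.Agent.Helper50.RM

open MeasureTheory Filter Topology

/-- the mean of the reciprocal of the number of viable prefixes at level `K` -/
noncomputable def II (K : ℕ) : ℝ := ∫ x in (0 : ℝ)..2, (1 / (cnt K 0 x : ℝ))

theorem inv_bound {z ν Z : ℝ} (hz : 0 < z) (hν : 0 ≤ ν) (hνz : ν ≤ z) (hZ : 2 * z ≤ Z + ν) :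
    1 / Z ≤ 1 / (2 * z) + ν / (2 * z ^ 2) := by
  have h1 : 0 < 2 * z - ν := by linarith
  have h2 : 2 * z - ν ≤ Z := by linarith
  refine (one_div_le_one_div_of_le h1 h2).trans ?_
  have e : 1 / (2 * z) + ν / (2 * z ^ 2) = (z + ν) / (2 * z ^ 2) := by
    field_simp
  rw [e, div_le_div_iff₀ h1 (by positivity)]
  nlinarith [mul_nonneg hν (sub_nonneg.2 hνz)]

theorem meas_recip (K : ℕ) : Measurable fun x : ℝ => (1 / (cnt K 0 x : ℝ)) := by
  have h : Measurable fun x : ℝ => (cnt K 0 x : ℝ) := measurable_from_top.comp (measurable_cnt K 0)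
  exact measurable_const.div h

theorem recip_le (K : ℕ) (x : ℝ) : (1 / (cnt K 0 x : ℝ)) ≤ 1 := by
  rcases Nat.eq_zero_or_pos (cnt K 0 x) with h | h
  · rw [h]
    simp
  · rw [div_le_one (by exact_mod_cast h)]
    exact_mod_cast h

theorem recip_nonneg (K : ℕ) (x : ℝ) : 0 ≤ (1 / (cnt K 0 x : ℝ)) := by positivity

theorem intervalIntegrable_of_bdd {f : ℝ → ℝ} (hf : Measurable f) {C : ℝ} (hC : ∀ x, |f x| ≤ C)
    (a b : ℝ) : IntervalIntegrable f volume a b := by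
  rw [intervalIntegrable_iff]
  refine Measure.integrableOn_of_bounded (M := C) ?_ hf.aestronglyMeasurable ?_
  · rw [Set.uIoc, Real.volume_Ioc]
    exact ENNReal.ofReal_ne_top
  · exact Eventually.of_forall hC

theorem recip_int (K : ℕ) (a b : ℝ) :
    IntervalIntegrable (fun x : ℝ => (1 / (cnt K 0 x : ℝ))) volume a b :=
  intervalIntegrable_of_bdd (meas_recip K) (C := 1) (fun x => by
    rw [abs_of_nonneg (recip_nonneg K x)]
    exact recip_le K x) a b

/-- the integral over `(0, 2]` is the sum over the cells -/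
theorem cells_sum {f : ℝ → ℝ} (K : ℕ) (hf : ∀ a b : ℝ, IntervalIntegrable f volume a b) :
    ∫ x in (0 : ℝ)..2, f x = ∑ j ∈ Finset.range (2 ^ (K + 1)),
      ∫ x in ((j : ℝ) / 2 ^ K)..(((j : ℝ) + 1) / 2 ^ K), f x := by
  have h := intervalIntegral.sum_integral_adjacent_intervals (f := f) (μ := volume)
    (a := fun j : ℕ => (j : ℝ) / 2 ^ K) (n := 2 ^ (K + 1)) (fun k _ => hf _ _)
  have e1 : ((0 : ℕ) : ℝ) / 2 ^ K = 0 := by simp
  have e2 : ((2 ^ (K + 1) : ℕ) : ℝ) / 2 ^ K = 2 := by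
    push_cast
    rw [pow_succ]
    field_simp
  rw [e1, e2] at h
  rw [← h]
  refine Finset.sum_congr rfl fun j _ => ?_
  push_cast
  rfl

theorem cell_const (K j : ℕ) {x : ℝ} (hx : x ∈ Set.Ioc ((j : ℝ) / 2 ^ K) (((j : ℝ) + 1) / 2 ^ K)) :
    cnt K 0 x = cnt K 0 (((j : ℝ) + 1) / 2 ^ K) := by
  have hp : (0 : ℝ) < 2 ^ K := by positivity
  apply cnt_ceil
  have e : (2 : ℝ) ^ K * (((j : ℝ) + 1) / 2 ^ K) = (((j + 1 : ℕ) : ℤ) : ℝ) := by
    rw [mul_div_cancel₀ _ hp.ne']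
    push_cast
    rfl
  rw [e, Int.ceil_intCast, Int.ceil_eq_iff]
  have a1 := hx.1
  have a2 := hx.2
  rw [div_lt_iff₀ hp] at a1
  rw [le_div_iff₀ hp] at a2
  push_cast
  constructor <;> linarith

/-- one cell -/
theorem cell_step {K L : ℕ} (hδ : ∀ s : ℝ, volume.real (UU K L ∩ Set.Ioc (s - 1) s) ≤ 1 / 2)
    {j : ℕ} (hj : j < 2 ^ (K + 1)) :
    ∫ x in ((j : ℝ) / 2 ^ K)..(((j : ℝ) + 1) / 2 ^ K), (1 / (cnt (K + L) 0 x : ℝ)) ≤
      3 / 4 * ∫ x in ((j : ℝ) / 2 ^ K)..(((j : ℝ) + 1) / 2 ^ K), (1 / (cnt K 0 x : ℝ)) := by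
  classical
  have hp : (0 : ℝ) < 2 ^ K := by positivity
  obtain ⟨a, ha⟩ : ∃ a : ℝ, a = (j : ℝ) / 2 ^ K := ⟨_, rfl⟩
  obtain ⟨b, hb⟩ : ∃ b : ℝ, b = ((j : ℝ) + 1) / 2 ^ K := ⟨_, rfl⟩
  rw [← ha, ← hb]
  have hab : a ≤ b := by
    rw [ha, hb, div_le_div_iff_of_pos_right hp]
    linarith
  have hlen : b - a = (2 ^ K)⁻¹ := by
    rw [ha, hb]
    field_simp
    ring
  have h0a : 0 ≤ a := by rw [ha]; positivity
  have hb2 : b ≤ 2 := by
    rw [hb, div_le_iff₀ hp]
    have : ((j + 1 : ℕ) : ℝ) ≤ ((2 ^ (K + 1) : ℕ) : ℝ) := by exact_mod_cast hj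
    push_cast at this
    rw [pow_succ] at this
    linarith
  set z : ℕ := cnt K 0 b with hz
  have hzx : ∀ x ∈ Set.Ioc a b, cnt K 0 x = z := by
    intro x hx
    rw [ha, hb] at hx
    rw [hz, hb]
    exact cell_const K j hx
  have hb0 : 0 < b := by
    rw [hb]
    positivity
  have hz1 : 1 ≤ z := one_le_cnt ⟨hb0, by push_cast; linarith⟩
  have hz1' : (1 : ℝ) ≤ z := by exact_mod_cast hz1
  -- the weights
  set m := (ws K 0).length with hm
  set w : Fin m → ℕ := fun i => (ws K 0)[(i : ℕ)] with hw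
  have hcnt : ∀ (l : ℕ) (x : ℝ), cnt (K + l) 0 x = ∑ i : Fin m, cnt l (0 + K) (2 ^ K * x - w i) := by
    intro l x
    rw [cnt_ws K l 0 x, ← Fin.sum_univ_fun_getElem]
  simp only [Nat.zero_add] at hcnt
  set ν : ℝ → ℝ := fun x => ∑ i : Fin m, Set.indicator {x : ℝ | 2 ^ K * x + (-(w i : ℝ)) ∈ UU K L}
    (fun _ => (1 : ℝ)) x with hν
  have hms : ∀ i : Fin m, MeasurableSet {x : ℝ | 2 ^ K * x + (-(w i : ℝ)) ∈ UU K L} := fun i =>
    (measurableSet_UU K L).preimage (by fun_prop)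
  -- termwise inequalities
  have hterm : ∀ (x : ℝ) (i : Fin m), 2 * ((cnt 0 K (2 ^ K * x - w i) : ℕ) : ℝ) ≤
      ((cnt L K (2 ^ K * x - w i) : ℕ) : ℝ) +
      Set.indicator {x : ℝ | 2 ^ K * x + (-(w i : ℝ)) ∈ UU K L} (fun _ => (1 : ℝ)) x := by
    intro x i
    by_cases hr : 0 < 2 ^ K * x - (w i : ℝ) ∧ 2 ^ K * x - (w i : ℝ) ≤ K + 2
    · rw [cnt_zero_in K _ hr]
      have h1 : 1 ≤ cnt L K (2 ^ K * x - w i) := one_le_cnt hr
      by_cases h2 : cnt L K (2 ^ K * x - w i) ≤ 1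
      · have h3 : x ∈ {x : ℝ | 2 ^ K * x + (-(w i : ℝ)) ∈ UU K L} := by
          rw [Set.mem_ofPred_eq, ← sub_eq_add_neg]
          exact ⟨hr, h2⟩
        rw [Set.indicator_of_mem h3]
        have h1' : (1 : ℝ) ≤ ((cnt L K (2 ^ K * x - w i) : ℕ) : ℝ) := by exact_mod_cast h1
        push_cast
        linarith
      · rw [not_le] at h2
        have h2' : (2 : ℝ) ≤ ((cnt L K (2 ^ K * x - w i) : ℕ) : ℝ) := by exact_mod_cast h2
        have h4 : 0 ≤ Set.indicator {x : ℝ | 2 ^ K * x + (-(w i : ℝ)) ∈ UU K L}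
          (fun _ => (1 : ℝ)) x := Set.indicator_nonneg (fun _ _ => zero_le_one) x
        push_cast
        linarith
    · rw [cnt_out 0 K _ hr]
      have h4 : 0 ≤ Set.indicator {x : ℝ | 2 ^ K * x + (-(w i : ℝ)) ∈ UU K L}
          (fun _ => (1 : ℝ)) x := Set.indicator_nonneg (fun _ _ => zero_le_one) x
      have h5 : (0 : ℝ) ≤ ((cnt L K (2 ^ K * x - w i) : ℕ) : ℝ) := Nat.cast_nonneg _
      push_cast
      linarith
  have hterm2 : ∀ (x : ℝ) (i : Fin m),
      Set.indicator {x : ℝ | 2 ^ K * x + (-(w i : ℝ)) ∈ UU K L} (fun _ => (1 : ℝ)) x ≤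
      ((cnt 0 K (2 ^ K * x - w i) : ℕ) : ℝ) := by
    intro x i
    by_cases h : x ∈ {x : ℝ | 2 ^ K * x + (-(w i : ℝ)) ∈ UU K L}
    · rw [Set.indicator_of_mem h]
      rw [Set.mem_ofPred_eq, ← sub_eq_add_neg] at h
      rw [cnt_zero_in K _ h.1]
      simp
    · rw [Set.indicator_of_notMem h]
      exact Nat.cast_nonneg _
  have hν0 : ∀ x, 0 ≤ ν x := fun x =>
    Finset.sum_nonneg fun i _ => Set.indicator_nonneg (fun _ _ => zero_le_one) x
  have hsum0 : ∀ x, ((cnt K 0 x : ℕ) : ℝ) = ∑ i : Fin m, ((cnt 0 K (2 ^ K * x - w i) : ℕ) : ℝ) := by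
    intro x
    have := hcnt 0 x
    rw [Nat.add_zero] at this
    rw [this]
    push_cast
    rfl
  have hνz : ∀ x, ν x ≤ cnt K 0 x := by
    intro x
    rw [hsum0]
    exact Finset.sum_le_sum fun i _ => hterm2 x i
  have hZ : ∀ x, 2 * (cnt K 0 x : ℝ) ≤ (cnt (K + L) 0 x : ℝ) + ν x := by
    intro x
    rw [hsum0, hcnt L x, Finset.mul_sum]
    push_cast
    rw [hν, ← Finset.sum_add_distrib]
    exact Finset.sum_le_sum fun i _ => hterm x i
  -- the integral of `ν`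
  have hνm : Measurable ν := by
    rw [hν]
    exact Finset.measurable_sum _ fun i _ => measurable_const.indicator (hms i)
  have hint1 : ∀ i : Fin m, ∫ x in a..b, Set.indicator
      {x : ℝ | 2 ^ K * x + (-(w i : ℝ)) ∈ UU K L} (fun _ => (1 : ℝ)) x ≤
      (2 ^ K)⁻¹ * (1 / 2) * ((cnt 0 K (2 ^ K * b - w i) : ℕ) : ℝ) := by
    intro i
    have e1 : ∫ x in a..b, Set.indicator
        {x : ℝ | 2 ^ K * x + (-(w i : ℝ)) ∈ UU K L} (fun _ => (1 : ℝ)) x =
        volume.real ({x : ℝ | 2 ^ K * x + (-(w i : ℝ)) ∈ UU K L} ∩ Set.Ioc a b) := by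
      rw [intervalIntegral.integral_of_le hab]
      have := integral_indicator_one (μ := volume.restrict (Set.Ioc a b)) (hms i)
      rw [measureReal_restrict_apply (hms i)] at this
      exact this
    rw [e1]
    have h2K : (2 : ℝ) ^ K * b = j + 1 := by
      rw [hb, mul_div_cancel₀ _ hp.ne']
    rw [h2K]
    by_cases hr : 0 < ((j : ℝ) + 1) - (w i : ℝ) ∧ ((j : ℝ) + 1) - (w i : ℝ) ≤ K + 2
    · rw [cnt_zero_in K _ hr]
      have hsub : ({x : ℝ | 2 ^ K * x + (-(w i : ℝ)) ∈ UU K L} ∩ Set.Ioc a b) ⊆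
          {x : ℝ | 2 ^ K * x + (-(w i : ℝ)) ∈ UU K L ∩ Set.Ioc (((j : ℝ) + 1 - w i) - 1)
            ((j : ℝ) + 1 - w i)} := by
        rintro x ⟨h1, h2, h3⟩
        rw [ha, div_lt_iff₀ hp] at h2
        rw [hb, le_div_iff₀ hp] at h3
        exact ⟨h1, by linarith, by linarith⟩
      have hfin : volume {x : ℝ | 2 ^ K * x + (-(w i : ℝ)) ∈ UU K L ∩
          Set.Ioc (((j : ℝ) + 1 - w i) - 1) ((j : ℝ) + 1 - w i)} ≠ ⊤ := by
        refine fin_of_sub (u := (j - 1) / 2 ^ K) (v := (j + 1) / 2 ^ K) ?_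
        rintro x ⟨-, h2, h3⟩
        constructor
        · rw [div_lt_iff₀ hp]
          linarith
        · rw [le_div_iff₀ hp]
          linarith
      have h1 := measureReal_mono (μ := volume) hsub hfin
      rw [vol_aff hp.ne', abs_of_pos hp] at h1
      have h2 := mul_le_mul_of_nonneg_left (hδ ((j : ℝ) + 1 - w i)) (inv_nonneg.2 hp.le)
      push_cast
      linarith
    · rw [cnt_out 0 K _ hr]
      have hemp : ({x : ℝ | 2 ^ K * x + (-(w i : ℝ)) ∈ UU K L} ∩ Set.Ioc a b) = ∅ := by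
        rw [Set.eq_empty_iff_forall_notMem]
        rintro x ⟨⟨⟨h1, h2⟩, -⟩, h3, h4⟩
        rw [ha, div_lt_iff₀ hp] at h3
        rw [hb, le_div_iff₀ hp] at h4
        apply hr
        have h5 : (w i : ℝ) < j + 1 := by linarith
        have h6 : (j : ℝ) < K + 2 + w i := by linarith
        have h6' : j < K + 2 + w i := by exact_mod_cast h6
        have h7 : ((j + 1 : ℕ) : ℝ) ≤ ((K + 2 + w i : ℕ) : ℝ) := by exact_mod_cast h6'
        push_cast at h7
        constructor <;> linarith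
      rw [hemp]
      simp
  have hintν : ∫ x in a..b, ν x ≤ (2 ^ K)⁻¹ * (1 / 2) * z := by
    rw [hν]
    rw [intervalIntegral.integral_finsetSum]
    · refine (Finset.sum_le_sum fun i _ => hint1 i).trans (le_of_eq ?_)
      rw [← Finset.mul_sum, ← hsum0 b]
    · intro i _
      refine intervalIntegrable_of_bdd (measurable_const.indicator (hms i)) (C := 1) ?_ a b
      intro x
      rw [abs_of_nonneg (Set.indicator_nonneg (fun _ _ => zero_le_one) x)]
      exact Set.indicator_le_self' (fun _ _ => zero_le_one) x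
  have hint : ∀ c d : ℝ, IntervalIntegrable ν volume c d := by
    intro c d
    refine intervalIntegrable_of_bdd hνm (C := m) ?_ c d
    intro x
    rw [abs_of_nonneg (hν0 x), hν]
    have : ∑ i : Fin m, Set.indicator {x : ℝ | 2 ^ K * x + (-(w i : ℝ)) ∈ UU K L}
        (fun _ => (1 : ℝ)) x ≤ ∑ i : Fin m, (1 : ℝ) :=
      Finset.sum_le_sum fun i _ => Set.indicator_le_self' (fun _ _ => zero_le_one) x
    simpa using this
  -- the two integrals
  have hR : ∫ x in a..b, (1 / (cnt K 0 x : ℝ)) = (2 ^ K)⁻¹ * (1 / z) := by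
    have : ∫ x in a..b, (1 / (cnt K 0 x : ℝ)) = ∫ x in a..b, (1 / (z : ℝ)) := by
      apply intervalIntegral.integral_congr_ae
      refine Eventually.of_forall fun x hx => ?_
      rw [Set.uIoc_of_le hab] at hx
      rw [hzx x hx]
    rw [this, intervalIntegral.integral_const, smul_eq_mul, hlen]
  rw [hR]
  have hL : ∫ x in a..b, (1 / (cnt (K + L) 0 x : ℝ)) ≤
      ∫ x in a..b, (1 / (2 * (z : ℝ)) + (1 / (2 * (z : ℝ) ^ 2)) * ν x) := by
    apply intervalIntegral.integral_mono_on_of_le_Ioo hab (recip_int (K + L) a b)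
    · exact (intervalIntegrable_const).add ((hint a b).const_mul _)
    · intro x hx
      have hx' : x ∈ Set.Ioc a b := ⟨hx.1, hx.2.le⟩
      have h1 := hνz x
      have h2 := hZ x
      rw [hzx x hx'] at h1 h2
      have h3 := inv_bound (by linarith : (0 : ℝ) < z) (hν0 x) h1 h2
      refine h3.trans (le_of_eq ?_)
      ring
  refine hL.trans ?_
  rw [intervalIntegral.integral_add intervalIntegrable_const ((hint a b).const_mul _),
    intervalIntegral.integral_const, intervalIntegral.integral_const_mul, smul_eq_mul, hlen]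
  have h4 : (1 / (2 * (z : ℝ) ^ 2)) * ∫ x in a..b, ν x ≤
      (1 / (2 * (z : ℝ) ^ 2)) * ((2 ^ K)⁻¹ * (1 / 2) * z) :=
    mul_le_mul_of_nonneg_left hintν (by positivity)
  refine (add_le_add_right h4 _).trans (le_of_eq ?_)
  have hz0 : (z : ℝ) ≠ 0 := by linarith
  field_simp
  ring

theorem II_step {K L : ℕ} (hδ : ∀ s : ℝ, volume.real (UU K L ∩ Set.Ioc (s - 1) s) ≤ 1 / 2) :
    II (K + L) ≤ 3 / 4 * II K := by
  unfold II
  rw [cells_sum K (recip_int (K + L)), cells_sum K (recip_int K), Finset.mul_sum]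
  exact Finset.sum_le_sum fun j hj => cell_step hδ (Finset.mem_range.1 hj)

end Pool.Agent.Helper50.RM
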