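import Pool.Agent.Helper50.RM.H

/-!
# The number of fractions with few representations
-/

set_option autoImplicit false

namespace Pool.Agent.Helper50.RM

open Finset MeasureTheory Filter Topology

theorem pow_aux {a : ℕ} (ha : 10 ≤ a) : 1024 * (a + 1) ≤ 11 * 2 ^ a := by
  induction a, ha using Nat.le_induction with
  | base => norm_num
  | succ a ha ih =>
    rw [pow_succ]
    omega

theorem unit_half {a : ℕ} (ha : 10 ≤ a) (s : ℝ) :
    volume.real (UU (2 ^ a - 2) (2 ^ (a + 11) - 2 ^ a) ∩ Set.Ioc (s - 1) s) ≤ 1 / 2 := by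
  have haux := pow_aux ha
  obtain ⟨A, hA⟩ : ∃ A, A = 2 ^ a := ⟨_, rfl⟩
  have h11 : 2 ^ (a + 11) = 2048 * A := by rw [hA, pow_add]; norm_num; ring
  have h10 : 2 ^ (a + 9 + 1) = 1024 * A := by
    rw [hA, show a + 9 + 1 = a + 10 by ring, pow_add]; norm_num; ring
  have h1 : 2 ^ (a + 1) = 2 * A := by rw [hA, pow_succ]; ring
  rw [← hA] at haux
  have hdec := bb_decay 9 a (2048 * A - 2) (by rw [h10]; omega)
  rw [h1] at hdec
  rw [h11, ← hA]
  obtain ⟨l, hl⟩ : ∃ l, l = 2048 * A - A - (a + 3) := ⟨_, rfl⟩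
  have hmono := bb_mono (A - 2 + (a + 3)) (2 * A - 2 - (A - 2 + (a + 3)))
    (2048 * A - 2 - (2 * A - 2))
  have e1 : 2 * A - 2 - (A - 2 + (a + 3)) + (2048 * A - 2 - (2 * A - 2)) = l := by omega
  have e2 : A - 2 + (a + 3) + (2 * A - 2 - (A - 2 + (a + 3))) = 2 * A - 2 := by omega
  rw [e1, e2] at hmono
  have hunit := unit_le (a + 3) l (A - 2) s
  have e3 : a + 3 + l = 2048 * A - A := by omega
  rw [e3] at hunit
  refine hunit.trans ?_
  have hA0 : (0 : ℝ) < A := by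
    have : 0 < A := by omega
    exact_mod_cast this
  have hA3 : (2 : ℝ) ^ (a + 3) = 8 * A := by rw [hA, pow_add]; push_cast; ring
  have hA1 : (2 : ℝ) ^ (a + 1) = 2 * A := by rw [hA, pow_add]; push_cast; ring
  rw [hA3]
  rw [hA1] at hdec
  have hbb : bb (A - 2 + (a + 3)) l ≤ 2 * a + 2 + 2 * A * (3 / 4) ^ 9 := hmono.trans hdec
  have hT : (8 * (A : ℝ)) / ((A - 2 + (a + 3) : ℕ) + 2) ≤ 8 := by
    rw [div_le_iff₀ (by positivity)]
    have h2 : ((A : ℕ) : ℝ) ≤ ((A - 2 + (a + 3) + 2 : ℕ) : ℝ) := by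
      exact_mod_cast (by omega : A ≤ A - 2 + (a + 3) + 2)
    push_cast at h2 ⊢
    linarith
  have haux' : 1024 * ((a : ℝ) + 1) ≤ 11 * A := by exact_mod_cast haux
  have h3 : (8 * (A : ℝ))⁻¹ * bb (A - 2 + (a + 3)) l ≤ 1 / 40 := by
    rw [inv_mul_le_iff₀ (by positivity)]
    refine hbb.trans ?_
    norm_num
    linarith
  have h4 : 0 ≤ (8 * (A : ℝ))⁻¹ * bb (A - 2 + (a + 3)) l :=
    mul_nonneg (by positivity) (bb_nonneg _ _)
  have h5 : 2 * (8 * (A : ℝ) / ((A - 2 + (a + 3) : ℕ) + 2) + 2) ≤ 20 := by linarith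
  calc _ ≤ 20 * (1 / 40 : ℝ) := mul_le_mul h5 h3 h4 (by norm_num)
    _ = 1 / 2 := by norm_num

theorem II_nonneg (K : ℕ) : 0 ≤ II K :=
  intervalIntegral.integral_nonneg (by norm_num) fun x _ => recip_nonneg K x

theorem II_le_two (K : ℕ) : II K ≤ 2 := by
  have h : II K ≤ ∫ _ in (0 : ℝ)..2, (1 : ℝ) :=
    intervalIntegral.integral_mono_on (by norm_num) (recip_int K 0 2) intervalIntegrable_const
      fun x _ => recip_le K x
  rw [intervalIntegral.integral_const] at h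
  norm_num at h
  exact h

theorem II_anti {K N : ℕ} (h : K ≤ N) : II N ≤ II K := by
  apply intervalIntegral.integral_mono_on_of_le_Ioo (by norm_num) (recip_int N 0 2)
    (recip_int K 0 2)
  intro x hx
  have h1 : 1 ≤ cnt K 0 x := one_le_cnt ⟨hx.1, by push_cast; linarith [hx.2]⟩
  have h2 := cnt_mono h 0 x
  apply one_div_le_one_div_of_le
  · exact_mod_cast h1
  · exact_mod_cast h2

theorem II_iter (i : ℕ) : II (2 ^ (10 + 11 * i) - 2) ≤ 2 * (3 / 4 : ℝ) ^ i := by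
  induction i with
  | zero =>
    rw [pow_zero, mul_one]
    exact II_le_two _
  | succ i ih =>
    have h1 := II_step (unit_half (a := 10 + 11 * i) (by omega))
    have e : 2 ^ (10 + 11 * i) - 2 + (2 ^ (10 + 11 * i + 11) - 2 ^ (10 + 11 * i)) =
        2 ^ (10 + 11 * (i + 1)) - 2 := by
      have h2 : 2 ^ (10 + 11 * (i + 1)) = 2 ^ (10 + 11 * i + 11) := by ring
      have h3 : 2 ^ (10 + 11 * i) ≤ 2 ^ (10 + 11 * i + 11) :=
        Nat.pow_le_pow_right (by norm_num) (by omega)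
      have h4 : 2 ^ 10 ≤ 2 ^ (10 + 11 * i) := Nat.pow_le_pow_right (by norm_num) (by omega)
      rw [h2]
      omega
    rw [e] at h1
    refine h1.trans ?_
    rw [pow_succ]
    linarith

theorem II_bound (N : ℕ) : II N ^ 30 * ((N : ℝ) + 2) ≤ 4 ^ 30 := by
  by_cases hN : N + 2 < 2 ^ 10
  · have h1 : II N ^ 30 ≤ 2 ^ 30 := pow_le_pow_left₀ (II_nonneg N) (II_le_two N) 30
    have h2 : ((N : ℝ) + 2) ≤ 2 ^ 10 := by
      have : ((N + 2 : ℕ) : ℝ) ≤ ((2 ^ 10 : ℕ) : ℝ) := by exact_mod_cast hN.le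
      rw [Nat.cast_add, Nat.cast_ofNat] at this
      refine this.trans ?_
      norm_num
    calc II N ^ 30 * ((N : ℝ) + 2) ≤ 2 ^ 30 * 2 ^ 10 :=
          mul_le_mul h1 h2 (by positivity) (by positivity)
      _ ≤ 4 ^ 30 := by norm_num
  · rw [not_lt] at hN
    obtain ⟨t, ht⟩ : ∃ t, t = Nat.log 2 (N + 2) := ⟨_, rfl⟩
    have ht1 : 2 ^ t ≤ N + 2 := by rw [ht]; exact Nat.pow_log_le_self 2 (by omega)
    have ht2 : N + 2 < 2 ^ (t + 1) := by rw [ht]; exact Nat.lt_pow_succ_log_self (by norm_num) _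
    have ht3 : 10 ≤ t := by
      rw [ht]
      exact Nat.le_log_of_pow_le (by norm_num) hN
    obtain ⟨i, hi⟩ : ∃ i, i = (t - 10) / 11 := ⟨_, rfl⟩
    have hi1 : 10 + 11 * i ≤ t := by omega
    have hi2 : t + 1 ≤ 21 + 11 * i := by omega
    have h1 : 2 ^ (10 + 11 * i) - 2 ≤ N := by
      have : 2 ^ (10 + 11 * i) ≤ 2 ^ t := Nat.pow_le_pow_right (by norm_num) hi1
      omega
    have h2 : II N ≤ 2 * (3 / 4 : ℝ) ^ i := (II_anti h1).trans (II_iter i)
    have h3 : ((N : ℝ) + 2) ≤ 2 ^ (21 + 11 * i) := by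
      have h4 : N + 2 ≤ 2 ^ (21 + 11 * i) :=
        ht2.le.trans (Nat.pow_le_pow_right (by norm_num) hi2)
      have : ((N + 2 : ℕ) : ℝ) ≤ ((2 ^ (21 + 11 * i) : ℕ) : ℝ) := by exact_mod_cast h4
      push_cast at this
      exact this
    have h4 : II N ^ 30 ≤ (2 * (3 / 4 : ℝ) ^ i) ^ 30 := pow_le_pow_left₀ (II_nonneg N) h2 30
    have h5 : (2 * (3 / 4 : ℝ) ^ i) ^ 30 * 2 ^ (21 + 11 * i) =
        2 ^ 51 * ((3 / 4 : ℝ) ^ 30 * 2 ^ 11) ^ i := by
      rw [mul_pow, ← pow_mul, mul_comm i 30, pow_mul (3 / 4 : ℝ), pow_add (2 : ℝ) 21,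
        pow_mul (2 : ℝ) 11, mul_pow]
      ring
    have h6 : ((3 / 4 : ℝ) ^ 30 * 2 ^ 11) ^ i ≤ 1 := by
      apply pow_le_one₀ (by positivity)
      norm_num
    calc II N ^ 30 * ((N : ℝ) + 2) ≤ (2 * (3 / 4 : ℝ) ^ i) ^ 30 * 2 ^ (21 + 11 * i) :=
          mul_le_mul h4 h3 (by positivity) (by positivity)
      _ = 2 ^ 51 * ((3 / 4 : ℝ) ^ 30 * 2 ^ 11) ^ i := h5
      _ ≤ 2 ^ 51 * 1 := mul_le_mul_of_nonneg_left h6 (by positivity)
      _ ≤ 4 ^ 30 := by norm_num

/-- the bad cells -/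
noncomputable def Jb (N m : ℕ) : Finset ℕ := open Classical in
  (Icc 1 (2 ^ (N + 1))).filter (fun j : ℕ => cnt N 0 ((j : ℝ) / 2 ^ N) < m)

theorem cell_eq (N j : ℕ) {x : ℝ}
    (hx : x ∈ Set.Ioc (((j : ℝ) - 1) / 2 ^ N) ((j : ℝ) / 2 ^ N)) :
    cnt N 0 x = cnt N 0 ((j : ℝ) / 2 ^ N) := by
  have hp : (0 : ℝ) < 2 ^ N := by positivity
  apply cnt_ceil
  rw [mul_div_cancel₀ _ hp.ne', Int.ceil_natCast, Int.ceil_eq_iff]
  have a1 := hx.1
  have a2 := hx.2
  rw [div_lt_iff₀ hp] at a1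
  rw [le_div_iff₀ hp] at a2
  push_cast
  constructor <;> linarith

/-- the number of the bad cells -/
theorem Jb_card (N m : ℕ) : ((Jb N m).card : ℝ) ≤ 2 ^ N * (m * II N) := by
  classical
  have hp : (0 : ℝ) < 2 ^ N := by positivity
  rcases Nat.eq_zero_or_pos m with hm | hm
  · have : Jb N m = ∅ := by
      unfold Jb
      rw [Finset.filter_eq_empty_iff]
      intro j _
      omega
    rw [this]
    have := II_nonneg N
    rw [card_empty]
    push_cast
    positivity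
  have hm' : (0 : ℝ) < m := by exact_mod_cast hm
  -- the measure of the union of the bad cells
  have h1 : ((Jb N m).card : ℝ) * (2 ^ N)⁻¹ * (1 / m) ≤ II N := by
    unfold II
    have e1 : ∫ x in (0 : ℝ)..2, (1 / (cnt N 0 x : ℝ)) = ∑ j ∈ Finset.range (2 ^ (N + 1)),
        ∫ x in ((j : ℝ) / 2 ^ N)..(((j : ℝ) + 1) / 2 ^ N), (1 / (cnt N 0 x : ℝ)) :=
      cells_sum N (recip_int N)
    rw [e1]
    have e2 : ∀ j : ℕ, ∫ x in ((j : ℝ) / 2 ^ N)..(((j : ℝ) + 1) / 2 ^ N), (1 / (cnt N 0 x : ℝ)) =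
        (2 ^ N)⁻¹ * (1 / (cnt N 0 (((j + 1 : ℕ) : ℝ) / 2 ^ N) : ℝ)) := by
      intro j
      have hab : (j : ℝ) / 2 ^ N ≤ ((j : ℝ) + 1) / 2 ^ N := by
        rw [div_le_div_iff_of_pos_right hp]
        linarith
      have e3 : ∫ x in ((j : ℝ) / 2 ^ N)..(((j : ℝ) + 1) / 2 ^ N), (1 / (cnt N 0 x : ℝ)) =
          ∫ x in ((j : ℝ) / 2 ^ N)..(((j : ℝ) + 1) / 2 ^ N),
            (1 / (cnt N 0 (((j + 1 : ℕ) : ℝ) / 2 ^ N) : ℝ)) := by
        apply intervalIntegral.integral_congr_ae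
        refine Eventually.of_forall fun x hx => ?_
        rw [Set.uIoc_of_le hab] at hx
        have := cell_const N j hx
        rw [this]
        push_cast
        rfl
      rw [e3, intervalIntegral.integral_const, smul_eq_mul]
      congr 1
      field_simp
      ring
    rw [Finset.sum_congr rfl (fun j _ => e2 j)]
    have e4 : ∑ j ∈ Finset.range (2 ^ (N + 1)),
        (2 ^ N)⁻¹ * (1 / (cnt N 0 (((j + 1 : ℕ) : ℝ) / 2 ^ N) : ℝ)) =
        ∑ j ∈ (Icc 1 (2 ^ (N + 1)) : Finset ℕ),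
          (2 ^ N)⁻¹ * (1 / (cnt N 0 ((j : ℝ) / 2 ^ N) : ℝ)) := by
      rw [Finset.range_eq_Ico, Finset.sum_Ico_add'
        (fun j : ℕ => (2 ^ N)⁻¹ * (1 / (cnt N 0 ((j : ℝ) / 2 ^ N) : ℝ))) 0 (2 ^ (N + 1)) 1]
      apply Finset.sum_congr _ (fun _ _ => rfl)
      ext j
      rw [Finset.mem_Ico, Finset.mem_Icc]
      omega
    rw [e4]
    have h2 : ∑ j ∈ Jb N m, (2 ^ N)⁻¹ * (1 / (cnt N 0 ((j : ℝ) / 2 ^ N) : ℝ)) ≤
        ∑ j ∈ (Icc 1 (2 ^ (N + 1)) : Finset ℕ),
          (2 ^ N)⁻¹ * (1 / (cnt N 0 ((j : ℝ) / 2 ^ N) : ℝ)) := by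
      apply Finset.sum_le_sum_of_subset_of_nonneg
      · unfold Jb
        exact Finset.filter_subset _ _
      · intro j _ _
        positivity
    refine le_trans ?_ h2
    have h3 : ∀ j ∈ Jb N m, (2 ^ N)⁻¹ * (1 / (m : ℝ)) ≤
        (2 ^ N)⁻¹ * (1 / (cnt N 0 ((j : ℝ) / 2 ^ N) : ℝ)) := by
      intro j hj
      unfold Jb at hj
      rw [mem_filter, mem_Icc] at hj
      apply mul_le_mul_of_nonneg_left _ (inv_nonneg.2 hp.le)
      have hj1 : (1 : ℝ) ≤ j := by exact_mod_cast hj.1.1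
      have hj2 : (j : ℝ) ≤ 2 ^ (N + 1) := by exact_mod_cast hj.1.2
      have h4 : 1 ≤ cnt N 0 ((j : ℝ) / 2 ^ N) := by
        apply one_le_cnt
        constructor
        · positivity
        · rw [div_le_iff₀ hp]
          rw [pow_succ] at hj2
          push_cast
          linarith
      apply one_div_le_one_div_of_le
      · exact_mod_cast h4
      · exact_mod_cast hj.2.le
    have h4 := Finset.sum_le_sum h3
    rw [Finset.sum_const, nsmul_eq_mul] at h4
    linarith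
  have h2 : ((Jb N m).card : ℝ) * (2 ^ N)⁻¹ * (1 / m) = (Jb N m).card / (2 ^ N * m) := by
    field_simp
  rw [h2, div_le_iff₀ (by positivity)] at h1
  linarith

/-- the number of the bad fractions -/
theorem count_le (N m q : ℕ) (hq0 : 0 < q) :
    ((range (2 * q + 1)).filter (fun p : ℕ =>
      ¬ ((m : ℕ∞) ≤ {A : Set ℕ | IsRep ((p : ℝ) / q) A}.encard))).card ≤
      (q / 2 ^ N + 1) * (Jb N m).card + 1 := by
  classical
  have hp : (0 : ℝ) < 2 ^ N := by positivity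
  have hq0' : (0 : ℝ) < q := by exact_mod_cast hq0
  set B : Finset ℕ := (Icc 1 (2 * q)).filter (fun p : ℕ => cnt N 0 ((p : ℝ) / q) < m) with hB
  have hsub : (range (2 * q + 1)).filter (fun p : ℕ =>
      ¬ ((m : ℕ∞) ≤ {A : Set ℕ | IsRep ((p : ℝ) / q) A}.encard)) ⊆ insert 0 B := by
    intro p hpp
    rw [mem_filter, mem_range] at hpp
    rw [mem_insert]
    by_cases h0 : p = 0
    · exact Or.inl h0
    · right
      rw [hB, mem_filter, mem_Icc]
      refine ⟨⟨by omega, by omega⟩, ?_⟩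
      by_contra hcon
      push Not at hcon
      exact hpp.2 (le_trans (by exact_mod_cast hcon) (encard_ge N ((p : ℝ) / q)))
  have hBc : B.card ≤ (q / 2 ^ N + 1) * (Jb N m).card := by
    refine card_le_mul_card_image_of_maps_to
      (f := fun p : ℕ => ⌈(2 : ℝ) ^ N * ((p : ℝ) / q)⌉₊) (fun p hpB => ?_) _ fun j _ => ?_
    · rw [hB, mem_filter, mem_Icc] at hpB
      have hp1 : (1 : ℝ) ≤ p := by exact_mod_cast hpB.1.1
      have hp2 : (p : ℝ) ≤ 2 * q := by exact_mod_cast hpB.1.2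
      have hpos : 0 < (2 : ℝ) ^ N * ((p : ℝ) / q) := by positivity
      unfold Jb
      rw [mem_filter, mem_Icc]
      refine ⟨⟨Nat.ceil_pos.2 hpos, Nat.ceil_le.2 ?_⟩, ?_⟩
      · push_cast
        rw [pow_succ]
        refine mul_le_mul_of_nonneg_left ?_ hp.le
        rw [div_le_iff₀ hq0']
        exact hp2
      · have h2 : cnt N 0 ((⌈(2 : ℝ) ^ N * ((p : ℝ) / q)⌉₊ : ℝ) / 2 ^ N) =
            cnt N 0 ((p : ℝ) / q) := by
          apply cnt_ceil
          rw [mul_div_cancel₀ _ hp.ne', Int.ceil_natCast]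
          exact Int.natCast_ceil_eq_ceil hpos.le
        rw [h2]
        exact hpB.2
    · -- the fibre
      rcases (B.filter (fun p : ℕ => ⌈(2 : ℝ) ^ N * ((p : ℝ) / q)⌉₊ = j)).eq_empty_or_nonempty
        with he | hne
      · rw [he, card_empty]
        exact Nat.zero_le _
      · set Fb := B.filter (fun p : ℕ => ⌈(2 : ℝ) ^ N * ((p : ℝ) / q)⌉₊ = j) with hFb
        have hmin := Fb.min'_mem hne
        set p0 := Fb.min' hne
        have hsub2 : Fb ⊆ Icc p0 (p0 + q / 2 ^ N) := by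
          intro p' hp'
          have hle : p0 ≤ p' := Fb.min'_le p' hp'
          rw [mem_Icc]
          refine ⟨hle, ?_⟩
          rw [hFb, mem_filter] at hp' hmin
          have e1 : (2 : ℝ) ^ N * ((p' : ℝ) / q) ≤ j := by
            rw [← hp'.2]; exact Nat.le_ceil _
          have e2 : (j : ℝ) < (2 : ℝ) ^ N * ((p0 : ℝ) / q) + 1 := by
            rw [← hmin.2]; exact Nat.ceil_lt_add_one (by positivity)
          have e3 : (2 : ℝ) ^ N * (((p' : ℝ) - p0) / q) < 1 := by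
            rw [sub_div, mul_sub]
            linarith
          have e4 : (2 : ℝ) ^ N * ((p' : ℝ) - p0) < q := by
            rw [← mul_div_assoc, div_lt_one hq0'] at e3
            exact e3
          have e5 : (p' - p0) * 2 ^ N ≤ q := by
            have : (((p' - p0) * 2 ^ N : ℕ) : ℝ) ≤ q := by
              rw [Nat.cast_mul, Nat.cast_sub hle]
              push_cast
              linarith
            exact_mod_cast this
          have e6 : p' - p0 ≤ q / 2 ^ N := (Nat.le_div_iff_mul_le (by positivity)).2 e5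
          omega
        refine (card_le_card hsub2).trans ?_
        rw [Nat.card_Icc]
        generalize q / 2 ^ N = t
        omega
  exact ((card_le_card hsub).trans (card_insert_le _ _)).trans (Nat.add_le_add_right hBc 1)

/-- All but at most `18 q / (log q) ^ (1 / 60)` of the fractions `p / q` in `[0, 2]` have at least
`(log q) ^ (1 / 60)` representations. -/
theorem fractions_log (q : ℕ) (hq : 2 ≤ q) :
    (((range (2 * q + 1)).filter (fun p : ℕ =>
      ¬ ((⌈Real.log q ^ (1 / 60 : ℝ)⌉₊ : ℕ∞) ≤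
        {A : Set ℕ | IsRep ((p : ℝ) / q) A}.encard))).card : ℝ) ≤
      18 * q / Real.log q ^ (1 / 60 : ℝ) := by
  classical
  have hq0' : (0 : ℝ) < q := by
    have : 0 < q := by omega
    exact_mod_cast this
  obtain ⟨N, hN⟩ : ∃ N, N = Nat.log 2 q := ⟨_, rfl⟩
  have hN1 : 2 ^ N ≤ q := by rw [hN]; exact Nat.pow_log_le_self 2 (by omega)
  have hN2 : q < 2 ^ (N + 1) := by rw [hN]; exact Nat.lt_pow_succ_log_self (by norm_num) _
  have hlog0 : 0 < Real.log q := Real.log_pos (by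
    have : ((2 : ℕ) : ℝ) ≤ q := by exact_mod_cast hq
    push_cast at this
    linarith)
  have hlogN : Real.log q ≤ (N : ℝ) + 2 := by
    have h1 : (q : ℝ) ≤ 2 ^ (N + 1) := by exact_mod_cast hN2.le
    have h2 : Real.log q ≤ Real.log (2 ^ (N + 1)) := Real.log_le_log hq0' h1
    rw [Real.log_pow] at h2
    have h3 : Real.log 2 ≤ 1 := by
      have := Real.log_two_lt_d9
      linarith
    have h4 : ((N + 1 : ℕ) : ℝ) * Real.log 2 ≤ ((N + 1 : ℕ) : ℝ) * 1 :=
      mul_le_mul_of_nonneg_left h3 (Nat.cast_nonneg _)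
    push_cast at h2 h4
    linarith
  obtain ⟨x, hx⟩ : ∃ x, x = Real.log q ^ (1 / 60 : ℝ) := ⟨_, rfl⟩
  obtain ⟨y, hy⟩ : ∃ y, y = ((N : ℝ) + 2) ^ (1 / 60 : ℝ) := ⟨_, rfl⟩
  rw [← hx]
  have hN0 : (0 : ℝ) ≤ N := Nat.cast_nonneg N
  have hx0 : 0 < x := by rw [hx]; exact Real.rpow_pos_of_pos hlog0 _
  have hxy : x ≤ y := by
    rw [hx, hy]
    exact Real.rpow_le_rpow hlog0.le hlogN (by norm_num)
  have hy1 : 1 ≤ y := by
    rw [hy]
    exact Real.one_le_rpow (by linarith) (by norm_num)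
  have hy60 : y ^ 60 = (N : ℝ) + 2 := by
    rw [hy, ← Real.rpow_natCast, ← Real.rpow_mul (by linarith)]
    norm_num
  have hIy : II N * y ^ 2 ≤ 4 := by
    have h1 : (II N * y ^ 2) ^ 30 ≤ 4 ^ 30 := by
      rw [mul_pow, ← pow_mul]
      norm_num only
      rw [hy60]
      have := II_bound N
      norm_num at this ⊢
      exact this
    exact le_of_pow_le_pow_left₀ (by norm_num) (by norm_num) h1
  obtain ⟨m, hm⟩ : ∃ m, m = ⌈x⌉₊ := ⟨_, rfl⟩
  rw [← hm]
  have hm2 : (m : ℝ) ≤ 2 * y := by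
    have h1 := Nat.ceil_lt_add_one hx0.le
    rw [← hm] at h1
    linarith
  have h1 := count_le N m q (by omega)
  have hdiv : q / 2 ^ N = 1 := by
    rw [Nat.div_eq_iff (by positivity)]
    rw [pow_succ] at hN2
    omega
  rw [hdiv] at h1
  have h2 := Jb_card N m
  have h3 : (((range (2 * q + 1)).filter (fun p : ℕ =>
      ¬ ((m : ℕ∞) ≤ {A : Set ℕ | IsRep ((p : ℝ) / q) A}.encard))).card : ℝ) ≤
      2 * ((Jb N m).card : ℝ) + 1 := by exact_mod_cast h1
  have hN1' : (2 : ℝ) ^ N ≤ q := by exact_mod_cast hN1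
  have hI := II_nonneg N
  have hy0 : 0 < y := by linarith
  have h4 : 2 ^ N * (m * II N) * y ≤ q * 8 := by
    have h5 : (m * II N) * y ≤ 8 := by
      have h6 : (m : ℝ) * (II N * y) ≤ 2 * y * (II N * y) :=
        mul_le_mul_of_nonneg_right hm2 (by positivity)
      have h7 : 2 * y * (II N * y) = 2 * (II N * y ^ 2) := by ring
      linarith
    have h8 : 0 ≤ (m * II N) * y := by positivity
    calc 2 ^ N * (m * II N) * y = 2 ^ N * ((m * II N) * y) := by ring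
      _ ≤ q * 8 := mul_le_mul hN1' h5 h8 hq0'.le
  have h9 : y ≤ 2 * q := by
    have h10 : y ≤ y ^ 60 := le_self_pow₀ hy1 (by norm_num)
    rw [hy60] at h10
    have h11 : N + 2 ≤ 2 * 2 ^ N := by
      have : N + 1 ≤ 2 ^ N := Nat.lt_two_pow_self
      have h12 : 1 ≤ 2 ^ N := Nat.one_le_two_pow
      omega
    have h12 : ((N + 2 : ℕ) : ℝ) ≤ ((2 * 2 ^ N : ℕ) : ℝ) := by exact_mod_cast h11
    push_cast at h12
    linarith
  have h10 : (2 * ((Jb N m).card : ℝ) + 1) * y ≤ 18 * q := by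
    have h11 : ((Jb N m).card : ℝ) * y ≤ 2 ^ N * (m * II N) * y :=
      mul_le_mul_of_nonneg_right h2 hy0.le
    linarith
  rw [le_div_iff₀ hx0]
  have h12 : 0 ≤ 2 * ((Jb N m).card : ℝ) + 1 := by positivity
  calc _ ≤ (2 * ((Jb N m).card : ℝ) + 1) * x := mul_le_mul_of_nonneg_right h3 hx0.le
    _ ≤ (2 * ((Jb N m).card : ℝ) + 1) * y := mul_le_mul_of_nonneg_left hxy h12
    _ ≤ 18 * q := h10

end Pool.Agent.Helper50.RM
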